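import Pool.Agent.Y465.SZ.Stm

/-!
Project Y465-SZ, job CL: consequences of the cluster structure.
-/

set_option linter.unusedSectionVars false

namespace Pool.Agent.Y282.SZ.CL

open Pool.Agent.Y465.SZ

variable {E : Type} [Fintype E] [DecidableEq E] {mate : E × Fin 4 → E × Fin 4}

theorem exists_of_mul_ne {M N : Op mate} {x y : Cfg mate} (h : (M * N : Op mate) y x ≠ 0) :
    ∃ z, M y z ≠ 0 ∧ N z x ≠ 0 := by
  rw [Matrix.mul_apply] at h
  obtain ⟨z, _, hz⟩ := Finset.exists_ne_zero_of_sum_ne_zero h
  exact ⟨z, left_ne_zero_of_mul hz, right_ne_zero_of_mul hz⟩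

theorem msk_ne {B : Finset (E × Fin 4)} {M : Op mate} {x y : Cfg mate}
    (h : (msk B M : Op mate) y x ≠ 0) : (∀ b ∈ B, x.f b = y.f b) ∧ M y x ≠ 0 := by
  classical
  unfold msk at h
  rw [Matrix.of_apply] at h
  split_ifs at h with h1
  · exact ⟨h1, h⟩
  · exact absurd rfl h

theorem msk_apply {B : Finset (E × Fin 4)} {M : Op mate} {x y : Cfg mate}
    (h : ∀ b ∈ B, x.f b = y.f b) : (msk B M : Op mate) y x = M y x := by
  classical
  unfold msk
  rw [Matrix.of_apply]
  exact if_pos h

theorem msk_zero {B : Finset (E × Fin 4)} {M : Op mate} {x y : Cfg mate}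
    (h : ¬ ∀ b ∈ B, x.f b = y.f b) : (msk B M : Op mate) y x = 0 := by
  classical
  unfold msk
  rw [Matrix.of_apply]
  exact if_neg h

theorem chg_ne {b : E × Fin 4} {M : Op mate} {x y : Cfg mate}
    (h : (chg b M : Op mate) y x ≠ 0) : x.f b ≠ y.f b ∧ M y x ≠ 0 := by
  classical
  unfold chg at h
  rw [Matrix.of_apply] at h
  split_ifs at h with h1
  · exact ⟨h1, h⟩
  · exact absurd rfl h

theorem chg_apply {b : E × Fin 4} {M : Op mate} {x y : Cfg mate}
    (h : x.f b ≠ y.f b) : (chg b M : Op mate) y x = M y x := by
  classical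
  unfold chg
  rw [Matrix.of_apply]
  exact if_pos h

theorem chg_zero {b : E × Fin 4} {M : Op mate} {x y : Cfg mate}
    (h : x.f b = y.f b) : (chg b M : Op mate) y x = 0 := by
  classical
  unfold chg
  rw [Matrix.of_apply]
  exact if_neg (not_not.2 h)

/-- splitting of a masked operator according to the change at `b` -/
theorem split (B : Finset (E × Fin 4)) (b : E × Fin 4) (M : Op mate) :
    (msk B M : Op mate) = chg b (msk B M) + msk (insert b B) M := by
  ext y x
  rw [Matrix.add_apply]
  by_cases h : x.f b = y.f b
  · rw [chg_zero h, zero_add]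
    by_cases h2 : ∀ b' ∈ B, x.f b' = y.f b'
    · rw [msk_apply h2, msk_apply]
      intro b' hb'
      rcases Finset.mem_insert.1 hb' with h3 | h3
      · rw [h3, h]
      · exact h2 b' h3
    · rw [msk_zero h2, msk_zero]
      intro h3
      exact h2 fun b' hb' => h3 b' (Finset.mem_insert_of_mem hb')
  · rw [chg_apply h]
    have : (msk (insert b B) M : Op mate) y x = 0 := by
      apply msk_zero
      intro h3
      exact h (h3 b (Finset.mem_insert_self b B))
    rw [this, add_zero]

/-- product of masked monotone operators -/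
theorem msk_mul {M N : Op mate} (hM : ∀ x y, M y x ≠ 0 → ∀ h, y.f h = true → x.f h = true)
    (hN : ∀ x y, N y x ≠ 0 → ∀ h, y.f h = true → x.f h = true) (B : Finset (E × Fin 4)) :
    (msk B M * msk B N : Op mate) = msk B (M * N) := by
  ext y x
  by_cases h : ∀ b ∈ B, x.f b = y.f b
  · rw [msk_apply h, Matrix.mul_apply, Matrix.mul_apply]
    apply Finset.sum_congr rfl
    intro z _
    by_cases h1 : ∀ b ∈ B, x.f b = z.f b
    · have h2 : ∀ b ∈ B, z.f b = y.f b := fun b hb => (h1 b hb).symm.trans (h b hb)
      rw [msk_apply h1, msk_apply h2]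
    · rw [msk_zero h1, mul_zero]
      symm
      by_contra hn
      apply h1
      intro b hb
      have a1 := hN x z (right_ne_zero_of_mul hn) b
      have a2 := hM z y (left_ne_zero_of_mul hn) b
      have a3 := h b hb
      cases hx : x.f b
      · cases hz : z.f b
        · rfl
        · rw [a1 hz] at hx
          exact absurd hx (by decide)
      · exact (a2 (a3 ▸ hx)).symm
  · rw [msk_zero h]
    by_contra hn
    obtain ⟨z, h1, h2⟩ := exists_of_mul_ne hn
    apply h
    intro b hb
    exact ((msk_ne h2).1 b hb).trans ((msk_ne h1).1 b hb)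

theorem cs_mem {q : E × Fin 4} {x y : Cfg mate} (h : CS q x y) : x.K ⊆ y.K := h.1

/-- the first cluster of a composite is invariant for the last state -/
theorem inv_first {r1 r2 : E × Fin 4} {x z y : Cfg mate} (h1 : CS r1 x z) (h2 : CS r2 z y) :
    Inv mate y.K (fun h => x.f h && !z.f h) := by
  obtain ⟨_, _, _, _, _, _, a7, _, _⟩ := h1
  obtain ⟨b1, _, _, _, _, _, _, b8, _⟩ := h2
  apply inv_congr a7
  intro e he
  have he1 : e ∉ z.K := fun h => (he.1 h) (b1 h)
  have he2 : e ∈ y.K := by tauto
  rw [(b8 e he2 he1 0).1, (b8 e he2 he1 2).1]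
  simp

/-- the second cluster of a composite is invariant for the first state -/
theorem inv_second {r1 r2 : E × Fin 4} {x z y : Cfg mate} (h1 : CS r1 x z) (h2 : CS r2 z y) :
    Inv mate x.K (fun h => z.f h && !y.f h) := by
  obtain ⟨a1, _, _, _, _, _, _, a8, _⟩ := h1
  obtain ⟨_, _, _, _, _, b6, _, _, _⟩ := h2
  apply inv_congr b6
  intro e he
  have he1 : e ∉ x.K := by
    intro h
    exact (he.1 (a1 h)) h
  have he2 : e ∈ z.K := by tauto
  rw [(a8 e he2 he1 0).2, (a8 e he2 he1 2).2]
  simp

theorem const_first {r1 r2 : E × Fin 4} {x z y : Cfg mate} (h1 : CS r1 x z) (h2 : CS r2 z y)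
    {g : E × Fin 4 → Bool} (gx : Inv mate x.K g) (gy : Inv mate y.K g) {h : E × Fin 4}
    (ha : x.f h = true) (hb : z.f h = false) : g h = g r1 := by
  have i1 := inv_first h1 h2
  obtain ⟨_, _, _, a4, a5, a6, _, _, a9⟩ := h1
  obtain ⟨b1, _, _, _, _, _, _, b8, _⟩ := h2
  have key : ∀ g : E × Fin 4 → Bool, Inv mate x.K g → Inv mate y.K g → g r1 = true →
      g h = true := by
    intro g gx gy hg
    have iz : Inv mate z.K (fun h => g h && (x.f h && !z.f h)) := by
      apply inv_congr (gy.and i1)
      intro e he
      have he1 : e ∉ z.K := fun h => by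
        have := b1 h
        tauto
      have he2 : e ∈ y.K := by tauto
      rw [(b8 e he2 he1 0).1, (b8 e he2 he1 2).1]
      simp
    have := a9 _ (gx.and a6) iz (by simp [hg, a4, a5]) h ha hb
    simp only [Bool.and_eq_true] at this
    exact this.1
  cases hr : g r1
  · have := key (fun h => !g h) gx.not gy.not (by simp [hr])
    simpa using this
  · exact key g gx gy hr

theorem const_second {r1 r2 : E × Fin 4} {x z y : Cfg mate} (h1 : CS r1 x z) (h2 : CS r2 z y)
    {g : E × Fin 4 → Bool} (gx : Inv mate x.K g) (gy : Inv mate y.K g) {h : E × Fin 4}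
    (ha : z.f h = true) (hb : y.f h = false) : g h = g r2 := by
  have i1 := inv_second h1 h2
  obtain ⟨a1, _, _, _, _, _, _, a8, _⟩ := h1
  obtain ⟨_, _, _, b4, b5, _, b7, _, b9⟩ := h2
  have key : ∀ g : E × Fin 4 → Bool, Inv mate x.K g → Inv mate y.K g → g r2 = true →
      g h = true := by
    intro g gx gy hg
    have iz : Inv mate z.K (fun h => g h && (z.f h && !y.f h)) := by
      apply inv_congr (gx.and i1)
      intro e he
      have he1 : e ∉ x.K := fun h => by
        have := a1 h
        tauto
      have he2 : e ∈ z.K := by tauto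
      rw [(a8 e he2 he1 0).2, (a8 e he2 he1 2).2]
      simp
    have := b9 _ iz (gy.and b7) (by simp [hg, b4, b5]) h ha hb
    simp only [Bool.and_eq_true] at this
    exact this.1
  cases hr : g r2
  · have := key (fun h => !g h) gx.not gy.not (by simp [hr])
    simpa using this
  · exact key g gx gy hr

theorem cl : S_CL := by
  intro E _ _ mate T hT hcomm
  classical
  constructor
  · intro b c q
    have key : ∀ x y : Cfg mate, (msk {b} (chg c (T q)) : Op mate) y x ≠ 0 →
        ¬ Same mate y.K b c ∧ ¬ Same mate x.K b c := by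
      intro x y h
      obtain ⟨h1, h2⟩ := msk_ne h
      obtain ⟨h3, h4⟩ := chg_ne h2
      obtain ⟨_, _, c3, _, _, c6, c7, _, _⟩ := hT q x y h4
      have h5 := h1 b (Finset.mem_singleton_self b)
      have h6 : x.f c = true ∧ y.f c = false := by
        cases hx : x.f c
        · cases hy : y.f c
          · rw [hx, hy] at h3
            exact absurd rfl h3
          · rw [c3 c hy] at hx
            exact absurd hx (by decide)
        · cases hy : y.f c
          · exact ⟨rfl, rfl⟩
          · rw [hx, hy] at h3
            exact absurd rfl h3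
      constructor
      · intro hs
        have := hs _ c7
        simp only [h5, h6.1, h6.2] at this
        cases hy : y.f b <;> simp [hy] at this
      · intro hs
        have := hs _ c6
        simp only [h5, h6.1, h6.2] at this
        cases hy : y.f b <;> simp [hy] at this
    constructor
    · ext y x
      by_contra hn
      obtain ⟨z, h1, h2⟩ := exists_of_mul_ne hn
      obtain ⟨h3, h4⟩ := ind_ne_zero h1
      exact (key x z h2).1 h4
    · ext y x
      by_contra hn
      obtain ⟨z, h1, h2⟩ := exists_of_mul_ne hn
      obtain ⟨h3, h4⟩ := ind_ne_zero h2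
      rw [h3] at h4
      exact (key z y h1).2 h4
  · intro B b p q _
    have mono : ∀ q x y, (T q) y x ≠ 0 → ∀ h, y.f h = true → x.f h = true :=
      fun q x y h => (hT q x y h).2.2.1
    have huv : (msk B (T q) * msk B (T p) : Op mate) = msk B (T p) * msk B (T q) := by
      rw [msk_mul (mono q) (mono p), msk_mul (mono p) (mono q), hcomm]
    ext y x
    by_cases hb : x.f b = y.f b
    · have h1 : (chg b (msk B (T q)) * msk (insert b B) (T p) : Op mate) y x = 0 := by
        by_contra hn
        obtain ⟨z, h1, h2⟩ := exists_of_mul_ne hn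
        have h3 := (msk_ne h2).1 b (Finset.mem_insert_self b B)
        exact (chg_ne h1).1 (h3.symm.trans hb)
      have h2 : (msk (insert b B) (T p) * chg b (msk B (T q)) : Op mate) y x = 0 := by
        by_contra hn
        obtain ⟨z, h1, h2⟩ := exists_of_mul_ne hn
        have h3 := (msk_ne h1).1 b (Finset.mem_insert_self b B)
        exact (chg_ne h2).1 (hb.trans h3.symm)
      rw [h1, h2]
    · -- expansion of both products at the entry
      have dbl : ∀ (p q : E × Fin 4), (chg b (msk B (T q)) * chg b (msk B (T p)) : Op mate) y x = 0 := by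
        intro p q
        by_contra hn
        obtain ⟨z, h1, h2⟩ := exists_of_mul_ne hn
        obtain ⟨a1, a2⟩ := chg_ne h1
        obtain ⟨b1, b2⟩ := chg_ne h2
        have a3 := mono q z y (msk_ne a2).2 b
        have b3 := mono p x z (msk_ne b2).2 b
        cases hx : x.f b <;> cases hz : z.f b <;> cases hy : y.f b <;>
          simp only [hx, hz, hy] at a1 b1 a3 b3 <;> simp at a1 b1 a3 b3
      have non : ∀ (p q : E × Fin 4),
          (msk (insert b B) (T q) * msk (insert b B) (T p) : Op mate) y x = 0 := by
        intro p q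
        by_contra hn
        obtain ⟨z, h1, h2⟩ := exists_of_mul_ne hn
        have a1 := (msk_ne h1).1 b (Finset.mem_insert_self b B)
        have a2 := (msk_ne h2).1 b (Finset.mem_insert_self b B)
        exact hb (a2.trans a1)
      have exp : ∀ (p q : E × Fin 4), (msk B (T q) * msk B (T p) : Op mate) y x =
          (chg b (msk B (T q)) * msk (insert b B) (T p) : Op mate) y x +
          (msk (insert b B) (T q) * chg b (msk B (T p)) : Op mate) y x := by
        intro p q
        have e : (msk B (T q) * msk B (T p) : Op mate) =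
            (chg b (msk B (T q)) + msk (insert b B) (T q)) *
              (chg b (msk B (T p)) + msk (insert b B) (T p)) := by
          rw [← split, ← split]
        rw [e, add_mul, mul_add, mul_add, Matrix.add_apply, Matrix.add_apply, Matrix.add_apply,
          dbl p q, non p q, zero_add, add_zero]
      have e1 := exp p q
      have e2 := exp q p
      rw [← huv] at e2
      rw [e1] at e2
      -- the two kinds of terms
      have chgq : ∀ {M : Op mate} {u v : Cfg mate}, (∀ h, v.f h = true → u.f h = true) →
          u.f b ≠ v.f b → u.f b = true ∧ v.f b = false := by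
        intro _ u v hm hne
        have := hm b
        cases hu : u.f b <;> cases hv : v.f b <;> simp_all
      have p1 : (chg b (msk B (T q)) * msk (insert b B) (T p) : Op mate) y x ≠ 0 →
          ∀ g, Inv mate x.K g → Inv mate y.K g → g b = g q := by
        intro hn g gx gy
        obtain ⟨z, h1, h2⟩ := exists_of_mul_ne hn
        obtain ⟨a1, a2⟩ := chg_ne h1
        have c2 := hT q z y (msk_ne a2).2
        have c1 := hT p x z (msk_ne h2).2
        have c3 := chgq (M := T q) c2.2.2.1 a1
        exact const_second c1 c2 gx gy c3.1 c3.2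
      have p2 : (msk (insert b B) (T p) * chg b (msk B (T q)) : Op mate) y x ≠ 0 →
          ∀ g, Inv mate x.K g → Inv mate y.K g → g b = g q := by
        intro hn g gx gy
        obtain ⟨z, h1, h2⟩ := exists_of_mul_ne hn
        obtain ⟨a1, a2⟩ := chg_ne h2
        have c1 := hT q x z (msk_ne a2).2
        have c2 := hT p z y (msk_ne h1).2
        have c3 := chgq (M := T q) c1.2.2.1 a1
        exact const_first c1 c2 gx gy c3.1 c3.2
      have n1 : (msk (insert b B) (T q) * chg b (msk B (T p)) : Op mate) y x ≠ 0 →
          ¬ ∀ g, Inv mate x.K g → Inv mate y.K g → g b = g q := by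
        intro hn hg
        obtain ⟨z, h1, h2⟩ := exists_of_mul_ne hn
        obtain ⟨a1, a2⟩ := chg_ne h2
        have c1 := hT p x z (msk_ne a2).2
        have c2 := hT q z y (msk_ne h1).2
        have c3 := chgq (M := T q) c1.2.2.1 a1
        have := hg (fun h => x.f h && !z.f h) c1.2.2.2.2.2.1 (inv_first c1 c2)
        simp only [c3.1, c3.2, c2.2.2.2.1] at this
        simp at this
      have n2 : (chg b (msk B (T p)) * msk (insert b B) (T q) : Op mate) y x ≠ 0 →
          ¬ ∀ g, Inv mate x.K g → Inv mate y.K g → g b = g q := by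
        intro hn hg
        obtain ⟨z, h1, h2⟩ := exists_of_mul_ne hn
        obtain ⟨a1, a2⟩ := chg_ne h1
        have c2 := hT p z y (msk_ne a2).2
        have c1 := hT q x z (msk_ne h2).2
        have c3 := chgq (M := T q) c2.2.2.1 a1
        have := hg (fun h => z.f h && !y.f h) (inv_second c1 c2) c2.2.2.2.2.2.2.1
        simp only [c3.1, c3.2, c1.2.2.2.2.1] at this
        simp at this
      by_cases hP : ∀ g, Inv mate x.K g → Inv mate y.K g → g b = g q
      · have z1 : (msk (insert b B) (T q) * chg b (msk B (T p)) : Op mate) y x = 0 := by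
          by_contra hn
          exact n1 hn hP
        have z2 : (chg b (msk B (T p)) * msk (insert b B) (T q) : Op mate) y x = 0 := by
          by_contra hn
          exact n2 hn hP
        rw [z1, z2, add_zero, zero_add] at e2
        exact e2
      · have z1 : (chg b (msk B (T q)) * msk (insert b B) (T p) : Op mate) y x = 0 := by
          by_contra hn
          exact hP (p1 hn)
        have z2 : (msk (insert b B) (T p) * chg b (msk B (T q)) : Op mate) y x = 0 := by
          by_contra hn
          exact hP (p2 hn)
        rw [z1, z2]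

end Pool.Agent.Y282.SZ.CL
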