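import Pool.Agent.Y465.SZ.Stm

/-!
Project Y465-SZ, job WTF: behaviour of the weight under single changes.
-/

set_option linter.unusedSectionVars false

namespace Pool.Agent.Y282.SZ

open Pool.Agent.Y465.SZ

variable {E : Type} [Fintype E] [DecidableEq E] {mate : E × Fin 4 → E × Fin 4}

/-- the set counted by `cn` -/
def cs (mate : E × Fin 4 → E × Fin 4) (K : Finset E) (g : E × Fin 4 → Bool) :
    Set (Set (E × Fin 4)) :=
  {c : Set (E × Fin 4) | ∃ h, g h = true ∧ c = {h' | Same mate K h h'}}

theorem cn_eq (K : Finset E) (g : E × Fin 4 → Bool) : cn mate K g = (cs mate K g).ncard := rfl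

theorem cls_eq {K : Finset E} {h h' : E × Fin 4} :
    ({x | Same mate K h x} = {x | Same mate K h' x}) ↔ Same mate K h h' := by
  constructor
  · intro H
    have : h' ∈ {x | Same mate K h x} := by
      rw [H]
      exact Same.refl K h'
    exact this
  · intro H
    ext x
    exact ⟨fun a => H.symm.trans a, fun a => H.trans a⟩

theorem cn_add (K : Finset E) (z z' : E × Fin 4 → Bool) (hz : Inv mate K z) (hz' : Inv mate K z')
    (hd : ∀ h, z h = true → z' h = false) :
    cn mate K (fun h => z h || z' h) = cn mate K z + cn mate K z' := by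
  rw [cn_eq, cn_eq, cn_eq, ← Set.ncard_union_eq _ (Set.toFinite _) (Set.toFinite _)]
  · congr 1
    ext c
    constructor
    · rintro ⟨h, h1, h2⟩
      rcases Bool.or_eq_true_iff.1 h1 with h3 | h3
      · exact Or.inl ⟨h, h3, h2⟩
      · exact Or.inr ⟨h, h3, h2⟩
    · rintro (⟨h, h1, h2⟩ | ⟨h, h1, h2⟩)
      · exact ⟨h, by simp [h1], h2⟩
      · exact ⟨h, by simp [h1], h2⟩
  · rw [Set.disjoint_left]
    rintro c ⟨h, h1, h2⟩ ⟨h', h1', h2'⟩
    have h3 : Same mate K h h' := cls_eq.1 (h2.symm.trans h2')
    have h4 := h3 z hz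
    have h5 := hd h' (h4.symm.trans h1)
    rw [h1'] at h5
    exact absurd h5 (by decide)

theorem cn_zero (K : Finset E) (z : E × Fin 4 → Bool) :
    (cn mate K z = 0 ↔ ∀ h, z h = false) := by
  rw [cn_eq, Set.ncard_eq_zero (Set.toFinite _)]
  constructor
  · intro H h
    by_contra hn
    have : {x | Same mate K h x} ∈ cs mate K z := ⟨h, by simpa using hn, rfl⟩
    rw [H] at this
    exact this
  · intro H
    ext c
    constructor
    · rintro ⟨h, h1, _⟩
      rw [H h] at h1
      exact absurd h1 (by decide)
    · intro h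
      exact absurd h (Set.notMem_empty c)

theorem cn_one (K : Finset E) (z : E × Fin 4 → Bool) :
    (cn mate K z = 1 ↔ (∃ h, z h = true) ∧ ∀ h h', z h = true → z h' = true → Same mate K h h') := by
  rw [cn_eq, Set.ncard_eq_one]
  constructor
  · rintro ⟨a, ha⟩
    refine ⟨?_, ?_⟩
    · have : a ∈ cs mate K z := by rw [ha]; exact rfl
      obtain ⟨h, h1, _⟩ := this
      exact ⟨h, h1⟩
    · intro h h' h1 h2
      have e1 : {x | Same mate K h x} ∈ cs mate K z := ⟨h, h1, rfl⟩
      have e2 : {x | Same mate K h' x} ∈ cs mate K z := ⟨h', h2, rfl⟩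
      rw [ha] at e1 e2
      exact cls_eq.1 ((Set.mem_singleton_iff.1 e1).trans (Set.mem_singleton_iff.1 e2).symm)
  · rintro ⟨⟨h, h1⟩, H⟩
    refine ⟨{x | Same mate K h x}, ?_⟩
    ext c
    constructor
    · rintro ⟨h', h2, h3⟩
      rw [h3]
      exact cls_eq.2 (H h' h h2 h1)
    · intro hc
      exact ⟨h, h1, hc⟩

theorem same_loc {K K' : Finset E} {z : E × Fin 4 → Bool} (hz : Inv mate K z) (hz' : Inv mate K' z)
    (hd : ∀ e, (e ∈ K ↔ ¬ e ∈ K') → z (e, 0) = false) {h h' : E × Fin 4} (h1 : z h = true)
    (H : Same mate K h h') : Same mate K' h h' := by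
  intro f hf
  have hfz := hf.and hz'
  have h2 : Inv mate K (fun h => f h && z h) := by
    apply inv_congr hfz
    intro e he
    have h0 : z (e, 0) = false := hd e (by tauto)
    have h3 : z (e, 2) = false := by
      by_cases hK : e ∈ K
      · rw [← h0]
        exact inv_const hz hz' hK (by tauto) 2
      · rw [← h0]
        exact inv_const hz' hz (by tauto) hK 2
    simp [h0, h3]
  have h4 := H _ h2
  have h5 := H z hz
  simp only [← h5, h1, Bool.and_true] at h4
  exact h4

theorem cn_loc (K K' : Finset E) (z : E × Fin 4 → Bool) (hz : Inv mate K z) (hz' : Inv mate K' z)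
    (hd : ∀ e, (e ∈ K ↔ ¬ e ∈ K') → z (e, 0) = false) : cn mate K z = cn mate K' z := by
  rw [cn_eq, cn_eq]
  congr 1
  have key : ∀ h, z h = true → {x | Same mate K h x} = {x | Same mate K' h x} := by
    intro h h1
    ext x
    exact ⟨fun H => same_loc hz hz' hd h1 H,
      fun H => same_loc hz' hz (fun e he => hd e (by tauto)) h1 H⟩
  ext c
  constructor
  · rintro ⟨h, h1, h2⟩
    exact ⟨h, h1, by rw [h2, key h h1]⟩
  · rintro ⟨h, h1, h2⟩
    exact ⟨h, h1, by rw [h2, key h h1]⟩

theorem tog_iff {K : Finset E} {e x : E} (hx : x ≠ e) : x ∈ tog K e ↔ x ∈ K := by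
  unfold tog
  split_ifs with h
  · simp [hx]
  · simp [hx]

theorem tog_self_iff {K : Finset E} {e : E} : e ∈ tog K e ↔ e ∉ K := by
  unfold tog
  split_ifs with h
  · simp [h]
  · simp [h]

theorem tog_tog (K : Finset E) (e : E) : tog (tog K e) e = K := by
  ext x
  by_cases hx : x = e
  · subst hx
    rw [tog_self_iff, tog_self_iff, not_not]
  · rw [tog_iff hx, tog_iff hx]

theorem tog_diff {K : Finset E} {e x : E} (h : x ∈ K ↔ ¬ x ∈ tog K e) : x = e := by
  by_contra hx
  rw [tog_iff hx] at h
  tauto

theorem tog_diff' {K : Finset E} {e x : E} (h : x ∈ tog K e ↔ ¬ x ∈ K) : x = e := by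
  by_contra hx
  rw [tog_iff hx] at h
  tauto

theorem cn_merge (hJ : JOI mate) (K : Finset E) (e : E) (g : E × Fin 4 → Bool)
    (hg : Inv mate K g) (h0 : g (e, 0) = true) (h2 : g (e, 2) = true)
    (hn : ¬ Same mate K (e, 0) (e, 2)) : cn mate K g = cn mate (tog K e) g + 1 := by
  classical
  obtain ⟨j1, j2⟩ := hJ K e hn
  have i1 : Inv mate K (fun h' => decide (Same mate K (e, 0) h')) := inv_class K (e, 0)
  have i2 : Inv mate K (fun h' => decide (Same mate K (e, 2) h')) := inv_class K (e, 2)
  set z1 : E × Fin 4 → Bool := fun h' => decide (Same mate K (e, 0) h') with hz1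
  set z2 : E × Fin 4 → Bool := fun h' => decide (Same mate K (e, 2) h') with hz2
  have d12 : ∀ h, z1 h = true → z2 h = false := by
    intro h a
    simp only [hz1, hz2, decide_eq_true_eq, decide_eq_false_iff_not] at a ⊢
    intro b
    exact hn (a.trans b.symm)
  have hz : Inv mate K (fun h => z1 h || z2 h) := i1.or i2
  set z : E × Fin 4 → Bool := fun h => z1 h || z2 h with hzd
  have zt : ∀ h, z h = true ↔ Same mate K (e, 0) h ∨ Same mate K (e, 2) h := by
    intro h
    simp [hzd, hz1, hz2]
  have ze0 : z (e, 0) = true := (zt _).2 (Or.inl (Same.refl _ _))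
  have ze2 : z (e, 2) = true := (zt _).2 (Or.inr (Same.refl _ _))
  have hz' : Inv mate (tog K e) z := by
    apply inv_congr hz
    intro x hx
    rw [tog_diff hx, ze0, ze2]
  have hg' : Inv mate (tog K e) g := by
    apply inv_congr hg
    intro x hx
    rw [tog_diff hx, h0, h2]
  have zg : ∀ h, z h = true → g h = true := by
    intro h a
    rcases (zt h).1 a with b | b
    · rw [← b g hg, h0]
    · rw [← b g hg, h2]
  set r : E × Fin 4 → Bool := fun h => g h && !z h with hr
  have hrK : Inv mate K r := hg.and hz.not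
  have hrK' : Inv mate (tog K e) r := hg'.and hz'.not
  have gr : g = fun h => r h || z h := by
    funext h
    simp only [hr]
    cases hzh : z h
    · simp
    · simp [zg h hzh]
  have drz : ∀ h, r h = true → z h = false := by
    intro h a
    simp only [hr, Bool.and_eq_true, Bool.not_eq_true'] at a
    exact a.2
  have c1 : cn mate K g = cn mate K r + cn mate K z := by
    conv_lhs => rw [gr]
    exact cn_add K r z hrK hz drz
  have c2 : cn mate (tog K e) g = cn mate (tog K e) r + cn mate (tog K e) z := by
    conv_lhs => rw [gr]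
    exact cn_add (tog K e) r z hrK' hz' drz
  have c3 : cn mate K r = cn mate (tog K e) r := by
    apply cn_loc K (tog K e) r hrK hrK'
    intro x hx
    rw [tog_diff hx]
    simp [hr, ze0]
  have c4 : cn mate K z = cn mate K z1 + cn mate K z2 := cn_add K z1 z2 i1 i2 d12
  have c5 : cn mate K z1 = 1 := by
    rw [cn_one]
    refine ⟨⟨(e, 0), by simp [hz1, Same.refl]⟩, ?_⟩
    intro h h' a b
    simp only [hz1, decide_eq_true_eq] at a b
    exact a.symm.trans b
  have c6 : cn mate K z2 = 1 := by
    rw [cn_one]
    refine ⟨⟨(e, 2), by simp [hz2, Same.refl]⟩, ?_⟩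
    intro h h' a b
    simp only [hz2, decide_eq_true_eq] at a b
    exact a.symm.trans b
  have c7 : cn mate (tog K e) z = 1 := by
    rw [cn_one]
    refine ⟨⟨(e, 0), ze0⟩, ?_⟩
    intro h h' a b
    rw [j2]
    rcases (zt h).1 a with a | a <;> rcases (zt h').1 b with b | b
    · exact Or.inl (a.symm.trans b)
    · exact Or.inr (Or.inl ⟨a.symm, b.symm⟩)
    · exact Or.inr (Or.inr ⟨a.symm, b.symm⟩)
    · exact Or.inl (a.symm.trans b)
  rw [c1, c2, c3, c4, c5, c6, c7]

theorem cn_split (hO : Ori mate) (hJ : JOI mate) (K : Finset E) (e : E) (g : E × Fin 4 → Bool)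
    (hg : Inv mate K g) (h0 : g (e, 0) = true) (h2 : g (e, 2) = true)
    (hn : Same mate K (e, 0) (e, 2)) : cn mate (tog K e) g = cn mate K g + 1 := by
  have h3 : ¬ Same mate (tog K e) (e, 0) (e, 2) := by
    rw [hO K e, not_not]
    exact hn
  have hg' : Inv mate (tog K e) g := by
    apply inv_congr hg
    intro x hx
    rw [tog_diff hx, h0, h2]
  have h4 := cn_merge hJ (tog K e) e g hg' h0 h2 h3
  rw [tog_tog] at h4
  exact h4

theorem tog_not_mem {K : Finset E} {e : E} (he : e ∉ K) : tog K e = insert e K := by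
  unfold tog
  simp [he]

theorem inv_insert {K : Finset E} {e : E} (he : e ∉ K) {f : E × Fin 4 → Bool}
    (hf : Inv mate K f) (h : f (e, 0) = f (e, 2)) : Inv mate (insert e K) f := by
  rw [← tog_not_mem he]
  apply inv_congr hf
  intro x hx
  rw [tog_diff hx, h]

theorem cn_off {K : Finset E} {e : E} (he : e ∉ K) {f : E × Fin 4 → Bool}
    (hf : Inv mate K f) (h0 : f (e, 0) = false) (h2 : f (e, 2) = false) :
    cn mate (insert e K) f = cn mate K f := by
  symm
  apply cn_loc K (insert e K) f hf (inv_insert he hf (h0.trans h2.symm))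
  intro x hx
  rw [← tog_not_mem he] at hx
  rw [tog_diff hx, h0]

theorem wtf : S_WTF := by
  intro _ E _ _ mate hO hJ
  refine ⟨?_, ?_, ?_, ?_, ?_, fun K z _ => cn_zero K z, fun K z _ => cn_one K z,
    fun K K' z hz hz' h => cn_loc K K' z hz hz' h, fun K z z' hz hz' h => cn_add K z z' hz hz' h⟩
  · intro K e f he hf h0 h2 hs
    have a := cn_off he hf h0 h2
    have b := cn_split hO hJ K e (fun h => !f h) hf.not (by simp [h0]) (by simp [h2]) hs
    rw [tog_not_mem he] at b
    unfold wt
    rw [a, b, Finset.card_insert_of_notMem he]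
    push_cast
    ring
  · intro K e f he hf h0 h2 hs
    have a := cn_off he hf h0 h2
    have b := cn_merge hJ K e (fun h => !f h) hf.not (by simp [h0]) (by simp [h2]) hs
    rw [tog_not_mem he] at b
    unfold wt
    rw [a, b, Finset.card_insert_of_notMem he]
    push_cast
    ring
  · intro K e f he hf h0 h2 hs
    have a := cn_off he hf.not (by simp [h0]) (by simp [h2])
    have b := cn_split hO hJ K e f hf h0 h2 hs
    rw [tog_not_mem he] at b
    unfold wt
    rw [a, b, Finset.card_insert_of_notMem he]
    push_cast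
    ring
  · intro K e f he hf h0 h2 hs
    have a := cn_off he hf.not (by simp [h0]) (by simp [h2])
    have b := cn_merge hJ K e f hf h0 h2 hs
    rw [tog_not_mem he] at b
    unfold wt
    rw [a, b, Finset.card_insert_of_notMem he]
    push_cast
    ring
  · intro K f g hf hg hfg
    have a : cn mate K g = cn mate K f + cn mate K (fun h => g h && !f h) := by
      have := cn_add K f (fun h => g h && !f h) hf (hg.and hf.not) (by
        intro h hh
        simp [hh])
      rw [← this]
      congr 1
      funext h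
      cases hh : f h
      · simp
      · simp [hfg h hh]
    have b : cn mate K (fun h => !f h) =
        cn mate K (fun h => !g h) + cn mate K (fun h => g h && !f h) := by
      have := cn_add K (fun h => !g h) (fun h => g h && !f h) hg.not (hg.and hf.not) (by
        intro h hh
        have : g h = false := by simpa using hh
        simp [this])
      rw [← this]
      congr 1
      funext h
      cases hh : f h
      · cases g h <;> simp
      · simp [hfg h hh]
    unfold wt
    rw [a, b]
    push_cast
    ring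

end Pool.Agent.Y282.SZ
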