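import Pool.Agent.Y465.SZ.Stm2
import Pool.Agent.Y282.SZ.WTF

/-!
Project Y465-SZ, job ETY: configurations of type E versus the local rule.
-/

set_option linter.unusedSectionVars false

namespace Pool.Agent.Y282.SZ.ETY

open Pool.Agent.Y465.SZ

variable {E : Type} [Fintype E] [DecidableEq E] {mate : E × Fin 4 → E × Fin 4}

theorem hd_tl (t : E → Bool) (e : E) :
    (hd t e = (e, 0) ∧ tl t e = (e, 2)) ∨ (hd t e = (e, 2) ∧ tl t e = (e, 0)) := by
  cases h : t e
  · left
    simp [hd, tl, pt, h]
  · right
    simp [hd, tl, pt, h]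

theorem same_iff (t : E → Bool) (e : E) (K : Finset E) :
    Same mate K (tl t e) (hd t e) ↔ Same mate K (e, 0) (e, 2) := by
  rcases hd_tl t e with ⟨a, b⟩ | ⟨a, b⟩
  · rw [a, b]
    exact ⟨Same.symm, Same.symm⟩
  · rw [a, b]

theorem both (t : E → Bool) (e : E) (f : E × Fin 4 → Bool) (b : Bool) (h1 : f (hd t e) = b)
    (h2 : f (tl t e) = b) : f (e, 0) = b ∧ f (e, 2) = b := by
  rcases hd_tl t e with ⟨a, c⟩ | ⟨a, c⟩
  · rw [a] at h1
    rw [c] at h2
    exact ⟨h1, h2⟩
  · rw [a] at h1
    rw [c] at h2
    exact ⟨h2, h1⟩

theorem tog_insert {K : Finset E} {e : E} (he : e ∉ K) : tog K e = insert e K := by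
  unfold tog
  rw [if_neg he]

theorem ori_insert (hO : Ori mate) {K : Finset E} {e : E} (he : e ∉ K) :
    Same mate (insert e K) (e, 0) (e, 2) ↔ ¬ Same mate K (e, 0) (e, 2) := by
  rw [← tog_insert he]
  exact hO K e

theorem forward (t : E → Bool) (x y : Cfg mate) (h : Star t x y) :
    LP t x y ∧ (y.K \ x.K).Nonempty := by
  classical
  obtain ⟨s1, s2, s3, s4, s5, s6⟩ := h
  refine ⟨⟨s1, ?_, ?_⟩, s2⟩
  · intro h hh
    by_contra hn
    by_cases hp : ∀ e ∈ y.K \ x.K, ¬ Same mate x.K h (hd t e) ∧ ¬ Same mate x.K h (tl t e)
    · rw [s6 h hp] at hn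
      exact hn hh
    · push Not at hp
      obtain ⟨e, he, hp⟩ := hp
      have h1 : ¬ Same mate x.K h (hd t e) := by
        intro a
        have := a x.f x.inv
        rw [hh, (s4 e he).1] at this
        exact absurd this (by decide)
      have h2 := hp h1
      have h3 : x.f (tl t e) = true := by
        rw [← h2 x.f x.inv, hh]
      rcases s5 e he with ⟨_, l2, _, l4⟩ | ⟨l1, _⟩
      · have i1 : Inv mate x.K (fun h' => decide (Same mate x.K (tl t e) h')) :=
          inv_class x.K (tl t e)
        set C : E × Fin 4 → Bool := fun h' => decide (Same mate x.K (tl t e) h') with hC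
        have hCt : ∀ h', C h' = true ↔ Same mate x.K (tl t e) h' := by
          intro h'
          simp [hC]
        have hCx : ∀ h', C h' = true → x.f h' = true := by
          intro h' a
          rw [← (hCt h').1 a x.f x.inv, h3]
        have hyt : y.f (tl t e) = true := by
          rw [l2 y.f y.inv, (s4 e he).2]
        have g : Inv mate x.K (fun h' => C h' && y.f h') := by
          rw [inv_iff]
          constructor
          · intro h'
            rw [i1.1, y.inv.1]
          · intro e'
            constructor
            · intro he'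
              have a := i1.slots_mem he'
              have b := y.inv.slots_mem (s1 he')
              rw [a.1, a.2, b.1, b.2]
              exact ⟨rfl, rfl⟩
            · intro he'
              have a := i1.slots_not_mem he'
              by_cases hy : e' ∈ y.K
              · by_cases hee : e' = e
                · subst hee
                  have b := both t e' y.f true (s4 e' he).2 hyt
                  have c := y.inv.slots_mem hy
                  rw [a.1, a.2, c.1, c.2, b.1, b.2]
                  exact ⟨rfl, rfl⟩
                · have he'' : e' ∈ y.K \ x.K := Finset.mem_sdiff.2 ⟨hy, he'⟩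
                  have c1 : C (hd t e') = false := by
                    by_contra hc
                    have := hCx _ (by simpa using hc)
                    rw [(s4 e' he'').1] at this
                    exact absurd this (by decide)
                  have c2 : C (tl t e') = false := by
                    by_contra hc
                    exact l4 e' he'' hee ((hCt _).1 (by simpa using hc))
                  have b := both t e' C false c1 c2
                  rw [a.1, a.2, b.1, b.2]
                  exact ⟨rfl, rfl⟩
              · have b := y.inv.slots_not_mem hy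
                rw [a.1, a.2, b.1, b.2]
                exact ⟨rfl, rfl⟩
        have h4 := h2 _ g
        have h5 : C (tl t e) = true := (hCt _).2 (Same.refl _ _)
        simp only [h5, hyt, Bool.and_self, Bool.and_eq_true] at h4
        exact hn h4.2
      · have := l1 x.f x.inv
        rw [h3, (s4 e he).1] at this
        exact absurd this (by decide)
  · intro e he1 he2
    have he : e ∈ y.K \ x.K := Finset.mem_sdiff.2 ⟨he1, he2⟩
    refine ⟨(s4 e he).1, (s4 e he).2, ?_⟩
    rcases s5 e he with ⟨_, l2, l3, _⟩ | ⟨l1, _, l3, _⟩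
    · rw [l3, l2 y.f y.inv, (s4 e he).2]
    · rw [l3, l1 x.f x.inv, (s4 e he).1]

theorem backward (hO : Ori mate) (hJ : JOI mate) (hW : WTF mate) (hC : CHN mate) (hD : DEG mate)
    (t : E → Bool) (x y : Cfg mate) (hw : y.w = x.w + 2) (hL : LP t x y)
    (hne : (y.K \ x.K).Nonempty) : Star t x y := by
  classical
  have star := hD.star t x y hL hw
  have hxy : x.K ⊆ y.K := hL.1
  have hlab : ∀ e ∈ y.K \ x.K, x.f (hd t e) = false ∧ y.f (hd t e) = true ∧
      x.f (tl t e) = y.f (tl t e) := fun e he =>
    hL.2.2 e (Finset.mem_sdiff.1 he).1 (Finset.mem_sdiff.1 he).2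
  set K0 : Finset E := x.K ∪ (y.K \ x.K).filter (fun e => x.f (tl t e) = false) with hK0
  have hK0x : x.K ⊆ K0 := Finset.subset_union_left
  have hK0m : ∀ e, e ∉ x.K → (e ∈ K0 ↔ e ∈ y.K \ x.K ∧ x.f (tl t e) = false) := by
    intro e he
    rw [hK0, Finset.mem_union, Finset.mem_filter]
    exact ⟨fun h => h.resolve_left he, Or.inr⟩
  have hK0y : K0 ⊆ y.K := by
    intro e he
    by_cases hx : e ∈ x.K
    · exact hxy hx
    · exact (Finset.mem_sdiff.1 ((hK0m e hx).1 he).1).1
  -- labels on the two parts
  have hx0 : ∀ e ∈ K0, e ∉ x.K → x.f (e, 0) = false ∧ x.f (e, 2) = false := by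
    intro e he hx
    obtain ⟨a, b⟩ := (hK0m e hx).1 he
    exact both t e x.f false (hlab e a).1 b
  have hy1 : ∀ e ∈ y.K, e ∉ K0 → y.f (e, 0) = true ∧ y.f (e, 2) = true := by
    intro e he h0
    have hx : e ∉ x.K := fun h => h0 (hK0x h)
    have a : e ∈ y.K \ x.K := Finset.mem_sdiff.2 ⟨he, hx⟩
    have b : x.f (tl t e) = true := by
      by_contra hn
      exact h0 ((hK0m e hx).2 ⟨a, by simpa using hn⟩)
    obtain ⟨c1, c2, c3⟩ := hlab e a
    exact both t e y.f true c2 (c3 ▸ b)
  -- invariance between
  have ix : ∀ K : Finset E, x.K ⊆ K → K ⊆ K0 → Inv mate K x.f := by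
    intro K h1 h2
    apply inv_congr x.inv
    intro e he
    have he1 : e ∉ x.K := fun h => (he.1 h) (h1 h)
    have he2 : e ∈ K := by tauto
    have := hx0 e (h2 he2) he1
    rw [this.1, this.2]
  have iy : ∀ K : Finset E, K0 ⊆ K → K ⊆ y.K → Inv mate K y.f := by
    intro K h1 h2
    apply inv_congr y.inv
    intro e he
    have he1 : e ∉ K := fun h => (he.1 (h2 h)) h
    have he2 : e ∈ y.K := by tauto
    have := hy1 e he2 (fun h => he1 (h1 h))
    rw [this.1, this.2]
  have hZi : Inv mate K0 (fun h => y.f h && !x.f h) :=
    (iy K0 (Finset.Subset.refl _) hK0y).and (ix K0 hK0x (Finset.Subset.refl _)).not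
  -- weights
  have w1 := (hC.c1 x.K K0 x.f hK0x x.inv hx0).1
  have w2 := (hC.cx K0 y.K y.f hK0y (iy K0 (Finset.Subset.refl _) hK0y) hy1).1
  have w3 := hW.lab K0 x.f y.f (ix K0 hK0x (Finset.Subset.refl _))
    (iy K0 (Finset.Subset.refl _) hK0y) hL.2.1
  have w4 : 1 ≤ cn mate K0 (fun h => y.f h && !x.f h) := by
    rw [Nat.one_le_iff_ne_zero]
    intro h0
    rw [hW.cn0 K0 _ hZi] at h0
    obtain ⟨e, he⟩ := hne
    have := h0 (hd t e)
    rw [(hlab e he).1, (hlab e he).2.1] at this
    exact absurd this (by decide)
  have wx : x.w = wt mate x.K x.f := rfl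
  have wy : y.w = wt mate y.K y.f := rfl
  have w4' : (1 : ℤ) ≤ (cn mate K0 (fun h => y.f h && !x.f h) : ℤ) := by exact_mod_cast w4
  have e1 : wt mate K0 x.f = x.w := by linarith
  have e2 : wt mate K0 y.f = y.w := by linarith
  have e3 : cn mate K0 (fun h => y.f h && !x.f h) = 1 := by
    have : (cn mate K0 (fun h => y.f h && !x.f h) : ℤ) = 1 := by linarith
    exact_mod_cast this
  rw [hW.cn1 K0 _ hZi] at e3
  have heads0 : ∀ e ∈ y.K \ x.K, ∀ f ∈ y.K \ x.K, Same mate K0 (hd t e) (hd t f) := by
    intro e he f hf
    apply e3.2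
    · simp [(hlab e he).1, (hlab e he).2.1]
    · simp [(hlab f hf).1, (hlab f hf).2.1]
  -- sub-lemma A
  have wA : ∀ K : Finset E, K0 ⊆ K → K ⊆ y.K → wt mate K y.f = y.w := by
    intro K h1 h2
    have a := (hC.cx K0 K y.f h1 (iy K0 (Finset.Subset.refl _) hK0y)
      (fun e he h => hy1 e (h2 he) h)).1
    have b := (hC.cx K y.K y.f h2 (iy K h1 h2)
      (fun e he h => hy1 e he (fun h' => h (h1 h')))).1
    linarith
  have lA : ∀ (K : Finset E) (e : E), K0 ⊆ K → e ∉ K → insert e K ⊆ y.K →
      ¬ Same mate K (e, 0) (e, 2) := by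
    intro K e h1 h2 h3 hs
    have h4 : K ⊆ y.K := (Finset.subset_insert e K).trans h3
    have h5 : e ∈ y.K := h3 (Finset.mem_insert_self e K)
    have h6 := hy1 e h5 (fun h => h2 (h1 h))
    have a := hW.sx K e y.f h2 (iy K h1 h4) h6.1 h6.2 hs
    have b := wA K h1 h4
    have c := wA (insert e K) (h1.trans (Finset.subset_insert e K)) h3
    linarith
  -- sub-lemma B
  have wB : ∀ K : Finset E, x.K ⊆ K → K ⊆ K0 → wt mate K x.f = x.w := by
    intro K h1 h2
    have a := (hC.c1 x.K K x.f h1 x.inv (fun e he h => hx0 e (h2 he) h)).1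
    have b := (hC.c1 K K0 x.f h2 (ix K h1 h2)
      (fun e he h => hx0 e he (fun h' => h (h1 h')))).1
    linarith
  have lB : ∀ (K : Finset E) (e : E), x.K ⊆ K → e ∉ K → insert e K ⊆ K0 →
      Same mate K (e, 0) (e, 2) := by
    intro K e h1 h2 h3
    by_contra hs
    have h4 : K ⊆ K0 := (Finset.subset_insert e K).trans h3
    have h5 : e ∈ K0 := h3 (Finset.mem_insert_self e K)
    have h6 := hx0 e h5 (fun h => h2 (h1 h))
    have a := hW.m1 K e x.f h2 (ix K h1 h4) h6.1 h6.2 hs
    have b := wB K h1 h4
    have c := wB (insert e K) (h1.trans (Finset.subset_insert e K)) h3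
    linarith
  refine ⟨hxy, hne, ?_, fun e he => ⟨(hlab e he).1, (hlab e he).2.1⟩, ?_, ?_⟩
  · intro e he f hf
    exact star _ _ (hlab e he).1 (hlab e he).2.1 (hlab f hf).1 (hlab f hf).2.1
  · intro e he
    have he1 : e ∈ y.K := (Finset.mem_sdiff.1 he).1
    have he2 : e ∉ x.K := (Finset.mem_sdiff.1 he).2
    obtain ⟨l1, l2, l3⟩ := hlab e he
    by_cases hc : x.f (tl t e) = true
    · left
      have he0 : e ∉ K0 := by
        intro h
        have := ((hK0m e he2).1 h).2
        rw [hc] at this
        exact absurd this (by decide)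
      refine ⟨?_, ?_, hc, ?_⟩
      · intro h
        have := h x.f x.inv
        rw [hc, l1] at this
        exact absurd this (by decide)
      · rw [same_iff]
        have h1 : K0 ⊆ y.K.erase e := by
          intro f hf
          rw [Finset.mem_erase]
          exact ⟨fun h => he0 (h ▸ hf), hK0y hf⟩
        have h2 : insert e (y.K.erase e) = y.K := Finset.insert_erase he1
        have h3 := lA (y.K.erase e) e h1 (Finset.notMem_erase e y.K) (by rw [h2])
        rw [← ori_insert hO (Finset.notMem_erase e y.K), h2] at h3
        exact h3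
      · intro f hf hfe hs
        have hf1 : f ∈ y.K := (Finset.mem_sdiff.1 hf).1
        have hf2 : f ∉ x.K := (Finset.mem_sdiff.1 hf).2
        have hcf : x.f (tl t f) = true := by
          rw [← hs x.f x.inv, hc]
        have hf0 : f ∉ K0 := by
          intro h
          have := ((hK0m f hf2).1 h).2
          rw [hcf] at this
          exact absurd this (by decide)
        have hs0 : Same mate K0 (tl t e) (tl t f) := by
          apply same_loc x.inv (ix K0 hK0x (Finset.Subset.refl _)) _ hc hs
          intro e' he'
          have a1 : e' ∉ x.K := fun h => (he'.1 h) (hK0x h)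
          have a2 : e' ∈ K0 := by tauto
          exact (hx0 e' a2 a1).1
        have h1 : insert e K0 ⊆ y.K := Finset.insert_subset he1 hK0y
        have n1 := lA K0 e (Finset.Subset.refl _) he0 h1
        have hf3 : f ∉ insert e K0 := by
          rw [Finset.mem_insert]
          rintro (h | h)
          · exact hfe h
          · exact hf0 h
        have n2 := lA (insert e K0) f (Finset.subset_insert e K0) hf3
          (Finset.insert_subset hf1 h1)
        have j := (hJ K0 e n1).2
        rw [tog_insert he0] at j
        have k1 : Same mate (insert e K0) (hd t f) (hd t e) := (j _ _).2 (Or.inl (heads0 f hf e he))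
        have k2 : Same mate (insert e K0) (tl t e) (hd t e) := by
          rw [same_iff, ori_insert hO he0]
          exact n1
        have k3 : Same mate (insert e K0) (tl t e) (tl t f) := (j _ _).2 (Or.inl hs0)
        apply n2
        rw [← same_iff t f]
        exact (k3.symm.trans k2).trans k1.symm
    · right
      have hc' : x.f (tl t e) = false := by simpa using hc
      have he0 : e ∈ K0 := (hK0m e he2).2 ⟨he, hc'⟩
      refine ⟨?_, ?_, by rw [← l3, hc'], ?_⟩
      · rw [same_iff]
        exact lB x.K e (Finset.Subset.refl _) he2 (Finset.insert_subset he0 hK0x)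
      · intro h
        have := h y.f y.inv
        rw [l2, ← l3, hc'] at this
        exact absurd this (by decide)
      · intro f hf hfe hs
        have hf1 : f ∈ y.K := (Finset.mem_sdiff.1 hf).1
        have hf2 : f ∉ x.K := (Finset.mem_sdiff.1 hf).2
        have hcf : x.f (tl t f) = false := by
          rw [(hlab f hf).2.2, ← hs y.f y.inv, ← l3, hc']
        have hf0 : f ∈ K0 := (hK0m f hf2).2 ⟨hf, hcf⟩
        have hs0 : Same mate K0 (tl t e) (tl t f) := by
          apply same_loc y.inv.not (iy K0 (Finset.Subset.refl _) hK0y).not _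
            (by rw [← l3, hc']; rfl) hs
          intro e' he'
          have a1 : e' ∈ y.K := by
            by_contra h
            exact h (hK0y (by tauto))
          have a2 : e' ∉ K0 := he'.1 a1
          simp [(hy1 e' a1 a2).1]
        have hx2 : x.K ⊆ K0.erase e := by
          intro g hg
          rw [Finset.mem_erase]
          exact ⟨fun h => he2 (h ▸ hg), hK0x hg⟩
        have hx3 : x.K ⊆ (K0.erase e).erase f := by
          intro g hg
          rw [Finset.mem_erase]
          exact ⟨fun h => hf2 (h ▸ hg), hx2 hg⟩
        have hf4 : f ∈ K0.erase e := Finset.mem_erase.2 ⟨hfe, hf0⟩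
        have i3 : insert f ((K0.erase e).erase f) = K0.erase e := Finset.insert_erase hf4
        have i2 : insert e (K0.erase e) = K0 := Finset.insert_erase he0
        have n3 := lB _ f hx3 (Finset.notMem_erase f _) (by rw [i3]; exact Finset.erase_subset e K0)
        have n2 := lB _ e hx2 (Finset.notMem_erase e _) (by rw [i2])
        have m2 : ¬ Same mate (K0.erase e) (f, 0) (f, 2) := by
          intro h
          rw [← i3, ori_insert hO (Finset.notMem_erase f _)] at h
          exact h n3
        have m0 : ¬ Same mate K0 (e, 0) (e, 2) := by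
          intro h
          rw [← i2, ori_insert hO (Finset.notMem_erase e _)] at h
          exact h n2
        have j := (hJ K0 e m0).2
        have hte : tog K0 e = K0.erase e := by
          unfold tog
          rw [if_pos he0]
        rw [hte] at j
        have k1 : Same mate (K0.erase e) (hd t f) (hd t e) := (j _ _).2 (Or.inl (heads0 f hf e he))
        have k2 : Same mate (K0.erase e) (tl t e) (hd t e) := (same_iff t e _).2 n2
        have k3 : Same mate (K0.erase e) (tl t e) (tl t f) := (j _ _).2 (Or.inl hs0)
        apply m2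
        rw [← same_iff t f]
        exact (k3.symm.trans k2).trans k1.symm
  · intro h hp
    cases hx : x.f h
    · by_contra hn
      have hy : y.f h = true := by simpa using hn
      obtain ⟨e, he⟩ := hne
      exact (hp e he).1 (star h (hd t e) hx hy (hlab e he).1 (hlab e he).2.1).1
    · exact hL.2.1 h hx

theorem ety : S_ETY := by
  intro E _ _ mate hO hJ hW hC hD t x y hw
  exact ⟨forward t x y, fun h => backward hO hJ hW hC hD t x y hw h.1 h.2⟩

end Pool.Agent.Y282.SZ.ETY
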