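import Pool.Agent.Y465.SZ.Stm

/-!
Project Y465-SZ, job P2A: the square of `L_0 + delta` at entries without L-pattern.
-/

set_option linter.unusedSectionVars false

namespace Pool.Agent.Y282.SZ.P2A

open Pool.Agent.Y465.SZ

variable {E : Type} [Fintype E] [DecidableEq E] {mate : E × Fin 4 → E × Fin 4}

theorem hd_tl (t : E → Bool) (e : E) :
    (hd t e = (e, 0) ∧ tl t e = (e, 2)) ∨ (hd t e = (e, 2) ∧ tl t e = (e, 0)) := by
  cases h : t e
  · left
    simp [hd, tl, pt, h]
  · right
    simp [hd, tl, pt, h]

theorem bool_eq (a b : Bool) (h4 : a = true → b = true) (h3 : (b && !a) = false) : a = b := by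
  revert a b
  decide

theorem tc_congr {A : Type} {s : Bool} {kind : A → Bool} {R : A × Bool → A × Bool → Prop}
    {R1 R1' : A → A × Bool → A × Bool → Prop} {t : A → Bool} {S : Finset A}
    (h : ∀ e ∈ S, R1 e = R1' e) (H : TC s kind R R1 t S) : TC s kind R R1' t S := by
  obtain ⟨a, b, c, d⟩ := H
  refine ⟨a, b, c, ?_⟩
  intro e he f hf hk
  rw [← h e he]
  exact d e he f hf hk

theorem exists_of_mul_ne {M N : Op mate} {x y : Cfg mate} (h : (M * N) y x ≠ 0) :
    ∃ z, M y z ≠ 0 ∧ N z x ≠ 0 := by
  rw [Matrix.mul_apply] at h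
  obtain ⟨z, _, hz⟩ := Finset.exists_ne_zero_of_sum_ne_zero h
  exact ⟨z, left_ne_zero_of_mul hz, right_ne_zero_of_mul hz⟩

/-- the type condition of `dl` for labels `b` on `S` -/
def Ty (mate : E × Fin 4 → E × Fin 4) (col : E × Fin 4 → Bool) (s : Bool) (t : E → Bool)
    (K K' : Finset E) (f : E × Fin 4 → Bool) : Prop :=
  (((∀ e ∈ K' \ K, f (e, 0) = false ∧ f (e, 2) = false) ∧
        (TA (fun p q => Same mate K (pt p) (pt q)) t (K' \ K) ∨
         TC s (fun e => col (e, 0)) (fun p q => Same mate K (pt p) (pt q))
           (fun e p q => Same mate (insert e K) (pt p) (pt q)) t (K' \ K))) ∨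
     ((∀ e ∈ K' \ K, f (e, 0) = true ∧ f (e, 2) = true) ∧
        (TA (fun p q => Same mate K' (pt p) (pt q)) t (K' \ K) ∨
         TC s (fun e => col (e, 0)) (fun p q => Same mate K' (pt p) (pt q))
           (fun e p q => Same mate (K'.erase e) (pt p) (pt q)) t (K' \ K))))

theorem ty_congr {col : E × Fin 4 → Bool} {s : Bool} {t : E → Bool} {K K' : Finset E}
    {f g : E × Fin 4 → Bool} (h : ∀ e ∈ K' \ K, f (e, 0) = g (e, 0) ∧ f (e, 2) = g (e, 2))
    (H : Ty mate col s t K K' f) : Ty mate col s t K K' g := by
  rcases H with ⟨a, b⟩ | ⟨a, b⟩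
  · left
    refine ⟨fun e he => ?_, b⟩
    rw [← (h e he).1, ← (h e he).2]
    exact a e he
  · right
    refine ⟨fun e he => ?_, b⟩
    rw [← (h e he).1, ← (h e he).2]
    exact a e he

theorem dl_iff {col : E × Fin 4 → Bool} {s : Bool} {t : E → Bool} {x y : Cfg mate}
    (h : (dl col s t : Op mate) y x ≠ 0) :
    x.f = y.f ∧ x.K ⊆ y.K ∧ (y.K \ x.K).Nonempty ∧ y.w = x.w + 2 ∧
      Ty mate col s t x.K y.K x.f := by
  obtain ⟨⟨a, b, c, d⟩, e⟩ := ind_ne_zero h
  exact ⟨a, b, c, d, e⟩

theorem dl_one {col : E × Fin 4 → Bool} {s : Bool} {t : E → Bool} {x y : Cfg mate}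
    (a : x.f = y.f) (b : x.K ⊆ y.K) (c : (y.K \ x.K).Nonempty) (d : y.w = x.w + 2)
    (e : Ty mate col s t x.K y.K x.f) : (dl col s t : Op mate) y x = 1 :=
  ind_eq_one ⟨⟨a, b, c, d⟩, e⟩

/-- the conclusion from the balanced circles: `Z` vanishes at the ends of all new crossings -/
theorem van {col : E × Fin 4 → Bool} (hB : BAL mate col) {s : Bool} {t : E → Bool}
    {K K' : Finset E} (v : E × Fin 4 → Bool) (hv : Inv mate K' v)
    (hK : (∀ e ∈ symmDiff K K', e ∉ K) ∨ (∀ e ∈ symmDiff K K', e ∈ K))
    (hT : TA (fun p q => Same mate K (pt p) (pt q)) t (symmDiff K K') ∨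
      TC s (fun e => col (e, 0)) (fun p q => Same mate K (pt p) (pt q))
        (fun e p q => Same mate (tog K e) (pt p) (pt q)) t (symmDiff K K'))
    (hL : ∀ e ∈ symmDiff K K', ¬ (v (hd t e) = true ∧ v (tl t e) = false))
    (hF : ∃ e ∈ symmDiff K K', ¬ (v (e, 0) = true ∧ v (e, 2) = true)) :
    ∀ e ∈ symmDiff K K', v (e, 0) = false ∧ v (e, 2) = false := by
  have h1 := hB s t K K' v hv hK hT hL
  have h2 : ∀ e ∈ symmDiff K K', v (e, 0) = v (e, 2) := by
    intro e he
    have := h1 e he
    rcases hd_tl t e with ⟨a, b⟩ | ⟨a, b⟩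
    · rw [a, b] at this
      exact this
    · rw [a, b] at this
      exact this.symm
  have h3 : Inv mate K v := by
    apply inv_congr hv
    intro e he
    apply h2
    rw [Finset.mem_symmDiff]
    tauto
  obtain ⟨e0, he0, hf0⟩ := hF
  have h4 : v (hd t e0) = false := by
    have h5 := h2 e0 he0
    rcases hd_tl t e0 with ⟨a, b⟩ | ⟨a, b⟩
    · rw [a]
      by_contra hn
      have : v (e0, 0) = true := by simpa using hn
      exact hf0 ⟨this, h5 ▸ this⟩
    · rw [a]
      by_contra hn
      have : v (e0, 2) = true := by simpa using hn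
      exact hf0 ⟨h5.symm ▸ this, this⟩
  intro e he
  have hs : Same mate K (hd t e) (hd t e0) := by
    rcases hT with hT | hT
    · exact (hT.1 e he e0 he0).1
    · exact (hT.1 e he e0 he0).1
  have h6 : v (hd t e) = false := by rw [hs v h3, h4]
  have h7 := h2 e he
  rcases hd_tl t e with ⟨a, b⟩ | ⟨a, b⟩
  · rw [a] at h6
    exact ⟨h6, h7 ▸ h6⟩
  · rw [a] at h6
    exact ⟨h7.symm ▸ h6, h6⟩

theorem wt_step (hW : WTF mate) {K : Finset E} {f g : E × Fin 4 → Bool} (hf : Inv mate K f)
    (hg : Inv mate K g) (h : ∀ h, f h = true → g h = true) :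
    wt mate K g = wt mate K f + 2 * (cn mate K (fun h => g h && !f h) : ℤ) :=
  hW.lab K f g hf hg h

theorem p2a : S_P2A := by
  intro E _ _ mate col _ _ hW hB s t x y hne hL hF
  classical
  -- the weights of the four corners
  have wts : x.K ⊆ y.K → (∀ h, x.f h = true → y.f h = true) →
      (∀ e ∈ y.K \ x.K, (y.f (e, 0) && !x.f (e, 0)) = false ∧ (y.f (e, 2) && !x.f (e, 2)) = false) →
      Inv mate y.K x.f → Inv mate x.K y.f →
      wt mate y.K y.f - wt mate y.K x.f = wt mate x.K y.f - wt mate x.K x.f := by
    intro hK hf hZ h1 h2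
    have a := wt_step hW h1 y.inv hf
    have b := wt_step hW x.inv h2 hf
    have c : cn mate y.K (fun h => y.f h && !x.f h) = cn mate x.K (fun h => y.f h && !x.f h) := by
      apply hW.loc _ _ _ (y.inv.and h1.not) (h2.and x.inv.not)
      intro e he
      apply (hZ e _).1
      rw [Finset.mem_sdiff]
      by_cases h3 : e ∈ y.K
      · exact ⟨h3, he.1 h3⟩
      · exfalso
        exact h3 (hK (by tauto))
    rw [a, b, c]
    ring
  -- the two remaining terms
  have hC : ∀ z : Cfg mate, (L0 t : Op mate) y z * (dl col s t : Op mate) z x ≠ 0 →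
      z.K = y.K ∧ z.f = x.f := by
    intro z hz
    have h1 := ind_ne_zero (left_ne_zero_of_mul hz)
    have h2 := dl_iff (right_ne_zero_of_mul hz)
    refine ⟨?_, h2.1.symm⟩
    apply Finset.Subset.antisymm h1.1.1
    intro e he
    by_contra hn
    have h3 := h1.1.2.2 e he hn
    rw [← h2.1] at h3
    exact hL e (Finset.mem_sdiff.2 ⟨he, fun h => hn (h2.2.1 h)⟩) h3
  have hD : ∀ z : Cfg mate, (dl col s t : Op mate) y z * (L0 t : Op mate) z x ≠ 0 →
      z.K = x.K ∧ z.f = y.f := by
    intro z hz
    have h1 := ind_ne_zero (right_ne_zero_of_mul hz)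
    have h2 := dl_iff (left_ne_zero_of_mul hz)
    refine ⟨?_, h2.1⟩
    apply Finset.Subset.antisymm _ h1.1.1
    intro e he
    by_contra hn
    have h3 := h1.1.2.2 e he hn
    rw [h2.1] at h3
    exact hL e (Finset.mem_sdiff.2 ⟨h2.2.1 he, hn⟩) h3
  have hLL : (L0 t * L0 t : Op mate) y x = 0 := by
    by_contra hz
    obtain ⟨z, h1, h2⟩ := exists_of_mul_ne hz
    have h1 := (ind_ne_zero h1).1
    have h2 := (ind_ne_zero h2).1
    obtain ⟨e, he, hf⟩ := hF
    have key : x.f (hd t e) = false ∧ y.f (hd t e) = true := by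
      rw [Finset.mem_sdiff] at he
      by_cases hez : e ∈ z.K
      · have h3 := h2.2.2 e hez he.2
        exact ⟨h3.1, h1.2.1 _ h3.2.1⟩
      · have h3 := h1.2.2 e he.1 hez
        refine ⟨?_, h3.2.1⟩
        by_contra hn
        have := h2.2.1 _ (by simpa using hn : x.f (hd t e) = true)
        rw [h3.1] at this
        exact absurd this (by decide)
    have key2 : x.f (tl t e) = false ∧ y.f (tl t e) = true := by
      have h3 : x.f (tl t e) ≠ y.f (tl t e) := fun h => hL e he ⟨key.1, key.2, h⟩
      have h4 : x.f (tl t e) = true → y.f (tl t e) = true := fun h => h1.2.1 _ (h2.2.1 _ h)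
      cases h5 : x.f (tl t e) <;> cases h6 : y.f (tl t e) <;> simp_all
    apply hf
    rcases hd_tl t e with ⟨a, b⟩ | ⟨a, b⟩
    · rw [a] at key
      rw [b] at key2
      exact ⟨key.1, key.2, key2.1, key2.2⟩
    · rw [a] at key
      rw [b] at key2
      exact ⟨key2.1, key2.2, key.1, key.2⟩
  have hdd : (dl col s t * dl col s t : Op mate) y x = 0 := by
    by_contra hz
    obtain ⟨z, h1, h2⟩ := exists_of_mul_ne hz
    exact hne ((dl_iff h2).1.trans (dl_iff h1).1)
  -- no L-pattern in terms of `Z`
  have hLZ : (∀ h, x.f h = true → y.f h = true) → ∀ e ∈ y.K \ x.K,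
      ¬ ((y.f (hd t e) && !x.f (hd t e)) = true ∧ (y.f (tl t e) && !x.f (tl t e)) = false) := by
    rintro hm e he ⟨a, b⟩
    simp only [Bool.and_eq_true, Bool.not_eq_true'] at a
    apply hL e he
    refine ⟨a.2, a.1, ?_⟩
    cases h5 : x.f (tl t e)
    · cases h6 : y.f (tl t e)
      · rfl
      · simp [h5, h6] at b
    · rw [hm _ h5]
  have hFZ : ∃ e ∈ y.K \ x.K,
      ¬ ((y.f (e, 0) && !x.f (e, 0)) = true ∧ (y.f (e, 2) && !x.f (e, 2)) = true) := by
    obtain ⟨e, he, hf⟩ := hF
    refine ⟨e, he, ?_⟩
    rintro ⟨a, b⟩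
    simp only [Bool.and_eq_true, Bool.not_eq_true'] at a b
    exact hf ⟨a.2, a.1, b.2, b.1⟩
  have key : (∃ z : Cfg mate, z.K = y.K ∧ z.f = x.f ∧
        (L0 t : Op mate) y z * (dl col s t : Op mate) z x ≠ 0) ↔
      (∃ z : Cfg mate, z.K = x.K ∧ z.f = y.f ∧
        (dl col s t : Op mate) y z * (L0 t : Op mate) z x ≠ 0) := by
    constructor
    · rintro ⟨z, hzK, hzf, hz⟩
      have h1 := ind_ne_zero (left_ne_zero_of_mul hz)
      obtain ⟨_, d2, d3, d4, d5⟩ := dl_iff (right_ne_zero_of_mul hz)
      rw [hzK] at d2 d3 d5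
      have hm : ∀ h, x.f h = true → y.f h = true := by
        intro h hh
        apply h1.1.2.1
        rw [hzf]
        exact hh
      have hxy : Inv mate y.K x.f := by
        rw [← hzK, ← hzf]
        exact z.inv
      have hsd : symmDiff x.K y.K = y.K \ x.K := symmDiff_of_le d2
      have hZ : ∀ e ∈ y.K \ x.K, (y.f (e, 0) && !x.f (e, 0)) = false ∧
          (y.f (e, 2) && !x.f (e, 2)) = false := by
        rcases d5 with ⟨a, b⟩ | ⟨a, b⟩
        · have := van hB (s := s) (t := t) (K := x.K) (K' := y.K) (fun h => y.f h && !x.f h)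
            (y.inv.and hxy.not) (by
              rw [hsd]
              left
              intro e he
              exact (Finset.mem_sdiff.1 he).2) (by
              rw [hsd]
              rcases b with b | b
              · exact Or.inl b
              · right
                apply tc_congr _ b
                intro e he
                have : tog x.K e = insert e x.K := by
                  unfold tog
                  rw [if_neg (Finset.mem_sdiff.1 he).2]
                rw [this]) (by
              rw [hsd]
              exact hLZ hm) (by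
              rw [hsd]
              exact hFZ)
          rw [hsd] at this
          exact this
        · intro e he
          rw [(a e he).1, (a e he).2]
          simp
      have hZy : Inv mate y.K (fun h => y.f h && !x.f h) := y.inv.and hxy.not
      have hZx : Inv mate x.K (fun h => y.f h && !x.f h) := by
        apply inv_congr hZy
        intro e he
        have he' : e ∈ y.K \ x.K := by
          rw [Finset.mem_sdiff]
          by_cases h3 : e ∈ y.K
          · exact ⟨h3, he.1 h3⟩
          · exfalso
            exact h3 (d2 (by tauto))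
        rw [(hZ e he').1, (hZ e he').2]
      have hyx : Inv mate x.K y.f := by
        have : y.f = fun h => x.f h || (y.f h && !x.f h) := by
          funext h
          cases h5 : x.f h
          · simp
          · simp [hm h h5]
        rw [this]
        exact x.inv.or hZx
      refine ⟨⟨x.K, y.f, hyx⟩, rfl, rfl, ?_⟩
      have hw := wts d2 hm hZ hxy hyx
      have e1 : y.w = wt mate y.K y.f := rfl
      have e2 : x.w = wt mate x.K x.f := rfl
      have e3 : z.w = wt mate y.K x.f := by rw [← hzK, ← hzf]; rfl
      have e4 : (⟨x.K, y.f, hyx⟩ : Cfg mate).w = wt mate x.K y.f := rfl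
      have h2 := h1.2
      apply mul_ne_zero
      · rw [dl_one (x := ⟨x.K, y.f, hyx⟩) (y := y) rfl d2 d3]
        · exact one_ne_zero
        · rw [e4]
          linarith
        · apply ty_congr _ d5
          intro e he
          have h3 := hZ e he
          exact ⟨bool_eq _ _ (hm _) h3.1, bool_eq _ _ (hm _) h3.2⟩
      · rw [L0, ind_eq_one]
        · exact one_ne_zero
        · refine ⟨⟨Finset.Subset.refl _, hm, fun e h1 h2 => absurd h1 h2⟩, ?_⟩
          rw [e4]
          linarith
    · rintro ⟨z, hzK, hzf, hz⟩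
      have h1 := ind_ne_zero (right_ne_zero_of_mul hz)
      obtain ⟨_, d2, d3, d4, d5⟩ := dl_iff (left_ne_zero_of_mul hz)
      rw [hzK] at d2 d3 d5
      rw [hzf] at d5
      have hm : ∀ h, x.f h = true → y.f h = true := by
        intro h hh
        have := h1.1.2.1 h hh
        rw [hzf] at this
        exact this
      have hyx : Inv mate x.K y.f := by
        rw [← hzK, ← hzf]
        exact z.inv
      have hsd : symmDiff y.K x.K = y.K \ x.K := symmDiff_of_ge d2
      have hZ : ∀ e ∈ y.K \ x.K, (y.f (e, 0) && !x.f (e, 0)) = false ∧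
          (y.f (e, 2) && !x.f (e, 2)) = false := by
        rcases d5 with ⟨a, b⟩ | ⟨a, b⟩
        · intro e he
          rw [(a e he).1, (a e he).2]
          simp
        · have := van hB (s := s) (t := t) (K := y.K) (K' := x.K) (fun h => y.f h && !x.f h)
            (hyx.and x.inv.not) (by
              rw [hsd]
              right
              intro e he
              exact (Finset.mem_sdiff.1 he).1) (by
              rw [hsd]
              rcases b with b | b
              · exact Or.inl b
              · right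
                apply tc_congr _ b
                intro e he
                have : tog y.K e = y.K.erase e := by
                  unfold tog
                  rw [if_pos (Finset.mem_sdiff.1 he).1]
                rw [this]) (by
              rw [hsd]
              exact hLZ hm) (by
              rw [hsd]
              exact hFZ)
          rw [hsd] at this
          exact this
      have hZx : Inv mate x.K (fun h => y.f h && !x.f h) := hyx.and x.inv.not
      have hZy : Inv mate y.K (fun h => y.f h && !x.f h) := by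
        apply inv_congr hZx
        intro e he
        have he' : e ∈ y.K \ x.K := by
          rw [Finset.mem_sdiff]
          by_cases h3 : e ∈ y.K
          · exact ⟨h3, by tauto⟩
          · exfalso
            exact h3 (d2 (by tauto))
        rw [(hZ e he').1, (hZ e he').2]
      have hxy : Inv mate y.K x.f := by
        have : x.f = fun h => y.f h && !(y.f h && !x.f h) := by
          funext h
          cases h5 : x.f h
          · cases y.f h <;> rfl
          · simp [hm h h5]
        rw [this]
        exact y.inv.and hZy.not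
      refine ⟨⟨y.K, x.f, hxy⟩, rfl, rfl, ?_⟩
      have hw := wts d2 hm hZ hxy hyx
      have e1 : y.w = wt mate y.K y.f := rfl
      have e2 : x.w = wt mate x.K x.f := rfl
      have e3 : z.w = wt mate x.K y.f := by rw [← hzK, ← hzf]; rfl
      have e4 : (⟨y.K, x.f, hxy⟩ : Cfg mate).w = wt mate y.K x.f := rfl
      have h2 := h1.2
      apply mul_ne_zero
      · rw [L0, ind_eq_one]
        · exact one_ne_zero
        · refine ⟨⟨Finset.Subset.refl _, hm, fun e h1 h2 => absurd h1 h2⟩, ?_⟩
          rw [e4]
          linarith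
      · rw [dl_one (x := x) (y := ⟨y.K, x.f, hxy⟩) rfl d2 d3]
        · exact one_ne_zero
        · rw [e4]
          linarith
        · apply ty_congr _ d5
          intro e he
          have h3 := hZ e he
          exact ⟨(bool_eq _ _ (hm _) h3.1).symm, (bool_eq _ _ (hm _) h3.2).symm⟩
  -- evaluation of the two products
  have bit : ∀ a : ZMod 2, a ≠ 0 → a = 1 := by decide
  have evC : (L0 t * dl col s t : Op mate) y x = if (∃ z : Cfg mate, z.K = y.K ∧ z.f = x.f ∧
        (L0 t : Op mate) y z * (dl col s t : Op mate) z x ≠ 0) then 1 else 0 := by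
    rw [Matrix.mul_apply]
    split_ifs with h
    · obtain ⟨z, hzK, hzf, hz⟩ := h
      rw [Finset.sum_eq_single z]
      · exact bit _ hz
      · intro z' _ hz'
        by_contra hn
        obtain ⟨a, b⟩ := hC z' hn
        exact hz' (Cfg.ext (a.trans hzK.symm) (b.trans hzf.symm))
      · intro hn
        exact absurd (Finset.mem_univ _) hn
    · apply Finset.sum_eq_zero
      intro z _
      by_contra hn
      obtain ⟨a, b⟩ := hC z hn
      exact h ⟨z, a, b, hn⟩
  have evD : (dl col s t * L0 t : Op mate) y x = if (∃ z : Cfg mate, z.K = x.K ∧ z.f = y.f ∧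
        (dl col s t : Op mate) y z * (L0 t : Op mate) z x ≠ 0) then 1 else 0 := by
    rw [Matrix.mul_apply]
    split_ifs with h
    · obtain ⟨z, hzK, hzf, hz⟩ := h
      rw [Finset.sum_eq_single z]
      · exact bit _ hz
      · intro z' _ hz'
        by_contra hn
        obtain ⟨a, b⟩ := hD z' hn
        exact hz' (Cfg.ext (a.trans hzK.symm) (b.trans hzf.symm))
      · intro hn
        exact absurd (Finset.mem_univ _) hn
    · apply Finset.sum_eq_zero
      intro z _
      by_contra hn
      obtain ⟨a, b⟩ := hD z hn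
      exact h ⟨z, a, b, hn⟩
  have e : ((L0 t + dl col s t) * (L0 t + dl col s t) : Op mate) =
      L0 t * L0 t + L0 t * dl col s t + (dl col s t * L0 t + dl col s t * dl col s t) := by
    rw [add_mul, mul_add, mul_add]
  rw [e, Matrix.add_apply, Matrix.add_apply, Matrix.add_apply, hLL, hdd, evC, evD]
  rw [if_congr key rfl rfl, zero_add, add_zero]
  exact CharTwo.add_self_eq_zero _

end Pool.Agent.Y282.SZ.P2A
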