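import Pool.Agent.Y465.SZ.Stm

/-!
Project Y465-SZ, job TQ: inverse of the local operator with cluster structure.
-/

set_option linter.unusedSectionVars false

namespace Pool.Agent.Y282.SZ.TQ

open Pool.Agent.Y465.SZ

variable {E : Type} [Fintype E] [DecidableEq E] {mate : E × Fin 4 → E × Fin 4}

/-! ### linear algebra in characteristic two -/

theorem add_self_op (M : Op mate) : M + M = 0 := by
  ext y x
  rw [Matrix.add_apply, CharTwo.add_self_eq_zero]
  rfl

theorem sub_eq_add_op (M N : Op mate) : M - N = M + N := by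
  have h := add_self_op N
  have h2 : -N = N := by
    rw [neg_eq_iff_add_eq_zero]
    exact h
  rw [sub_eq_add_neg, h2]

theorem mul_fn (M : Op mate) (P : Cfg mate → Prop) (φ : Cfg mate → Cfg mate) (x y : Cfg mate)
    [Decidable (P x)] :
    (M * ind (fun x y => P x ∧ y = φ x)) y x = if P x then M y (φ x) else 0 := by
  rw [Matrix.mul_apply]
  split_ifs with h
  · rw [Finset.sum_eq_single (φ x)]
    · rw [ind_eq_one ⟨h, rfl⟩, mul_one]
    · intro z _ hz
      rw [ind_eq_zero, mul_zero]
      rintro ⟨_, h2⟩
      exact hz h2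
    · intro hn
      exact absurd (Finset.mem_univ _) hn
  · apply Finset.sum_eq_zero
    intro z _
    rw [ind_eq_zero, mul_zero]
    rintro ⟨h1, _⟩
    exact h h1

theorem pr_eq (q : E × Fin 4) :
    (pr q : Op mate) = ind (fun x y => x.f q = true ∧ y = id x) := by
  unfold pr
  congr 1
  funext x y
  apply propext
  constructor
  · rintro ⟨a, b⟩
    exact ⟨b, a.symm⟩
  · rintro ⟨a, b⟩
    exact ⟨b.symm, a⟩

theorem pr_mul (q : E × Fin 4) (M : Op mate) (x y : Cfg mate) :
    (pr q * M : Op mate) y x = if y.f q = true then M y x else 0 := by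
  rw [Matrix.mul_apply]
  split_ifs with h
  · rw [Finset.sum_eq_single y]
    · rw [pr, ind_eq_one ⟨rfl, h⟩, one_mul]
    · intro z _ hz
      rw [pr, ind_eq_zero, zero_mul]
      rintro ⟨h2, _⟩
      exact hz h2
    · intro hn
      exact absurd (Finset.mem_univ _) hn
  · apply Finset.sum_eq_zero
    intro z _
    rw [pr, ind_eq_zero, zero_mul]
    rintro ⟨h1, h2⟩
    rw [h1] at h2
    exact h h2

/-! ### the circle of `q` -/

/-- indicator of the circle of `q` -/
noncomputable def ci (mate : E × Fin 4 → E × Fin 4) (q : E × Fin 4) (K : Finset E) :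
    E × Fin 4 → Bool :=
  open Classical in fun h => decide (Same mate K q h)

theorem ci_inv (q : E × Fin 4) (K : Finset E) : Inv mate K (ci mate q K) := by
  classical
  exact inv_class K q

theorem ci_iff {q : E × Fin 4} {K : Finset E} {h : E × Fin 4} :
    ci mate q K h = true ↔ Same mate K q h := by
  simp [ci]

theorem ci_self {q : E × Fin 4} {K : Finset E} : ci mate q K q = true := ci_iff.2 (Same.refl _ _)

/-- adding the circle of `q` -/
noncomputable def up (q : E × Fin 4) (x : Cfg mate) : Cfg mate :=
  ⟨x.K, fun h => x.f h || ci mate q x.K h, x.inv.or (ci_inv q x.K)⟩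

/-- removing the circle of `q` -/
noncomputable def dn (q : E × Fin 4) (x : Cfg mate) : Cfg mate :=
  ⟨x.K, fun h => x.f h && !ci mate q x.K h, x.inv.and (ci_inv q x.K).not⟩

theorem f_ci {q : E × Fin 4} {x : Cfg mate} {h : E × Fin 4} (hh : ci mate q x.K h = true) :
    x.f h = x.f q := ((ci_iff.1 hh) x.f x.inv).symm

theorem dn_up {q : E × Fin 4} {x : Cfg mate} (hx : x.f q = false) : dn q (up q x) = x := by
  apply Cfg.ext
  · rfl
  · funext h
    simp only [dn, up]
    cases hh : ci mate q x.K h
    · simp
    · simp [f_ci hh, hx]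

theorem up_dn {q : E × Fin 4} {x : Cfg mate} (hx : x.f q = true) : up q (dn q x) = x := by
  apply Cfg.ext
  · rfl
  · funext h
    simp only [dn, up]
    cases hh : ci mate q x.K h
    · simp
    · simp [f_ci hh, hx]

theorem up_q {q : E × Fin 4} {x : Cfg mate} : (up q x).f q = true := by
  simp [up, ci_self]

theorem dn_q {q : E × Fin 4} {x : Cfg mate} : (dn q x).f q = false := by
  simp [dn, ci_self]

theorem up_w (hW : WTF mate) {q : E × Fin 4} {x : Cfg mate} (hx : x.f q = false) :
    (up q x).w = x.w + 2 := by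
  have h1 := hW.lab x.K x.f (up q x).f x.inv (up q x).inv (by
    intro h hh
    simp [up, hh])
  have h2 : cn mate x.K (fun h => (up q x).f h && !x.f h) = 1 := by
    rw [hW.cn1 x.K _ ((up q x).inv.and x.inv.not)]
    refine ⟨⟨q, by simp [up_q, hx]⟩, ?_⟩
    intro h h' a b
    have key : ∀ h, ((up q x).f h && !x.f h) = true → Same mate x.K q h := by
      intro h a
      apply ci_iff.1
      cases hc : ci mate q x.K h
      · simp [up, hc] at a
      · rfl
    exact (key h a).symm.trans (key h' b)
  rw [h2] at h1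
  show wt mate x.K (up q x).f = wt mate x.K x.f + 2
  rw [h1]
  norm_num

theorem dn_w (hW : WTF mate) {q : E × Fin 4} {x : Cfg mate} (hx : x.f q = true) :
    x.w = (dn q x).w + 2 := by
  have := up_w hW (x := dn q x) (q := q) dn_q
  rw [up_dn hx] at this
  exact this

/-! ### the parts of the operator -/

noncomputable def XX (q : E × Fin 4) : Op mate := ind (fun x y => x.f q = false ∧ y = up q x)

noncomputable def th (q : E × Fin 4) : Op mate := ind (fun x y => x.f q = true ∧ y = dn q x)

noncomputable def nn (t : E → Bool) (q : E × Fin 4) : Op mate :=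
  ind (fun x y => ((LP t x y ∧ y.w = x.w + 2) ∧ x.f q = false ∧ y.f q = true) ∧ x.K ≠ y.K)

theorem X_iff (hW : WTF mate) (t : E → Bool) (q : E × Fin 4) (x y : Cfg mate) :
    (((LP t x y ∧ y.w = x.w + 2) ∧ x.f q = false ∧ y.f q = true) ∧ x.K = y.K) ↔
      x.f q = false ∧ y = up q x := by
  constructor
  · rintro ⟨⟨⟨h1, h2⟩, h3, h4⟩, h5⟩
    refine ⟨h3, ?_⟩
    apply Cfg.ext
    · exact h5.symm
    have hy : Inv mate x.K y.f := by
      rw [h5]
      exact y.inv
    have h6 := hW.lab x.K x.f y.f x.inv hy h1.2.1
    have h7 : y.w = wt mate x.K y.f := by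
      rw [h5]
      rfl
    rw [← h7, h2] at h6
    have h8 : cn mate x.K (fun h => y.f h && !x.f h) = 1 := by
      have : x.w = wt mate x.K x.f := rfl
      rw [this] at h6
      have h9 : (cn mate x.K (fun h => y.f h && !x.f h) : ℤ) = 1 := by linarith
      exact_mod_cast h9
    rw [hW.cn1 x.K _ (hy.and x.inv.not)] at h8
    obtain ⟨_, h8⟩ := h8
    have hq : (y.f q && !x.f q) = true := by simp [h3, h4]
    funext h
    show y.f h = (x.f h || ci mate q x.K h)
    cases hx : x.f h
    · cases hy' : y.f h
      · symm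
        simp only [Bool.false_or]
        by_contra hc
        have hc' : ci mate q x.K h = true := by simpa using hc
        have := (ci_iff.1 hc') y.f hy
        rw [h4, hy'] at this
        exact absurd this (by decide)
      · symm
        simp only [Bool.false_or]
        rw [ci_iff]
        exact h8 q h hq (by simp [hx, hy'])
    · simp [h1.2.1 h hx]
  · rintro ⟨h1, h2⟩
    subst h2
    refine ⟨⟨⟨⟨?_, ?_, ?_⟩, up_w hW h1⟩, h1, up_q⟩, rfl⟩
    · exact Finset.Subset.refl _
    · intro h hh
      simp [up, hh]
    · intro e h1 h2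
      exact absurd h1 h2

theorem LL_eq (hW : WTF mate) (t : E → Bool) (q : E × Fin 4) :
    (LL t q : Op mate) = XX q + nn t q := by
  ext y x
  rw [Matrix.add_apply]
  by_cases hc : (LP t x y ∧ y.w = x.w + 2) ∧ x.f q = false ∧ y.f q = true
  · rw [LL, ind_eq_one hc]
    by_cases hK : x.K = y.K
    · rw [XX, ind_eq_one ((X_iff hW t q x y).1 ⟨hc, hK⟩), nn, ind_eq_zero, add_zero]
      rintro ⟨_, h⟩
      exact h hK
    · have h0 : (XX q : Op mate) y x = 0 := by
        rw [XX, ind_eq_zero]
        intro h
        exact hK ((X_iff hW t q x y).2 h).2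
      rw [h0, nn, ind_eq_one ⟨hc, hK⟩, zero_add]
  · rw [LL, ind_eq_zero hc, XX, nn, ind_eq_zero, ind_eq_zero, add_zero]
    · rintro ⟨h, _⟩
      exact hc h
    · intro h
      exact hc ((X_iff hW t q x y).2 h).1

theorem one_add_pr (q : E × Fin 4) (x y : Cfg mate) [Decidable (x = y ∧ x.f q = false)] :
    (1 + pr q : Op mate) y x = if x = y ∧ x.f q = false then 1 else 0 := by
  rw [Matrix.add_apply]
  by_cases hxy : x = y
  · subst hxy
    rw [Matrix.one_apply_eq]
    by_cases hx : x.f q = true
    · rw [pr, ind_eq_one ⟨rfl, hx⟩, if_neg (by simp [hx])]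
      decide
    · have hx' : x.f q = false := by simpa using hx
      rw [pr, ind_eq_zero (by simp [hx]), add_zero, if_pos ⟨rfl, hx'⟩]
  · rw [Matrix.one_apply_ne (Ne.symm hxy), pr, ind_eq_zero (fun h => hxy h.1), if_neg (fun h => hxy h.1),
      add_zero]

theorem th_X (q : E × Fin 4) : (th q * XX q : Op mate) = 1 + pr q := by
  classical
  ext y x
  rw [one_add_pr, XX, mul_fn]
  by_cases hx : x.f q = false
  · rw [if_pos hx]
    by_cases hxy : x = y
    · rw [th, ind_eq_one ⟨up_q, by rw [dn_up hx, hxy]⟩, if_pos ⟨hxy, hx⟩]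
    · rw [th, ind_eq_zero, if_neg (fun h => hxy h.1)]
      rintro ⟨_, h⟩
      rw [dn_up hx] at h
      exact hxy h.symm
  · rw [if_neg hx, if_neg (fun h => hx h.2)]

theorem X_th (q : E × Fin 4) : (XX q * th q : Op mate) = pr q := by
  classical
  ext y x
  rw [th, mul_fn]
  by_cases hx : x.f q = true
  · rw [if_pos hx]
    by_cases hxy : x = y
    · rw [XX, ind_eq_one ⟨dn_q, by rw [up_dn hx, hxy]⟩, pr, ind_eq_one ⟨hxy, hx⟩]
    · rw [XX, ind_eq_zero, pr, ind_eq_zero (fun h => hxy h.1)]
      rintro ⟨_, h⟩
      rw [up_dn hx] at h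
      exact hxy h.symm
  · rw [if_neg hx, pr, ind_eq_zero (fun h => hx h.2)]

theorem th_pr (q : E × Fin 4) : (th q * pr q : Op mate) = th q := by
  classical
  ext y x
  rw [pr_eq, mul_fn]
  split_ifs with h
  · rfl
  · rw [th, ind_eq_zero (fun h' => h h'.1)]

theorem pr_th (q : E × Fin 4) : (pr q * th q : Op mate) = 0 := by
  classical
  ext y x
  rw [pr_mul]
  split_ifs with h
  · rw [th, ind_eq_zero]
    · rfl
    · rintro ⟨_, h2⟩
      rw [h2, dn_q] at h
      exact absurd h (by decide)
  · rfl

theorem n_pr (t : E → Bool) (q : E × Fin 4) : (nn t q * pr q : Op mate) = 0 := by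
  classical
  ext y x
  rw [pr_eq, mul_fn]
  split_ifs with h
  · rw [nn, ind_eq_zero]
    · rfl
    · rintro ⟨⟨_, h2, _⟩, _⟩
      rw [id, h] at h2
      exact absurd h2 (by decide)
  · rfl

theorem pr_n (t : E → Bool) (q : E × Fin 4) : (pr q * nn t q : Op mate) = nn t q := by
  classical
  ext y x
  rw [pr_mul]
  split_ifs with h
  · rfl
  · rw [nn, ind_eq_zero]
    rintro ⟨⟨_, _, h3⟩, _⟩
    exact h h3

/-- nonzero entries of a product -/
theorem exists_of_mul_ne {M N : Op mate} {x y : Cfg mate} (h : (M * N) y x ≠ 0) :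
    ∃ z, M y z ≠ 0 ∧ N z x ≠ 0 := by
  rw [Matrix.mul_apply] at h
  obtain ⟨z, _, hz⟩ := Finset.exists_ne_zero_of_sum_ne_zero h
  exact ⟨z, left_ne_zero_of_mul hz, right_ne_zero_of_mul hz⟩

theorem nth_K {t : E → Bool} {q : E × Fin 4} {x z : Cfg mate}
    (h : (nn t q * th q : Op mate) z x ≠ 0) :
    x.f q = true ∧ (LP t (dn q x) z ∧ z.w = (dn q x).w + 2) ∧ z.f q = true ∧ x.K ⊂ z.K := by
  obtain ⟨x1, h1, h2⟩ := exists_of_mul_ne h
  obtain ⟨h3, h4⟩ := ind_ne_zero h2
  obtain ⟨⟨h5, _, h6⟩, h7⟩ := ind_ne_zero h1
  subst h4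
  refine ⟨h3, h5, h6, ?_⟩
  rw [Finset.ssubset_iff_subset_ne]
  exact ⟨h5.1.1, h7⟩

theorem pow_K {t : E → Bool} {q : E × Fin 4} (m : ℕ) : ∀ {x z : Cfg mate},
    (((nn t q * th q) ^ m : Op mate) z x ≠ 0) → x.K.card + m ≤ z.K.card := by
  induction m with
  | zero =>
    intro x z h
    rw [pow_zero] at h
    by_cases hxz : z = x
    · rw [hxz]
      simp
    · rw [Matrix.one_apply_ne hxz] at h
      exact absurd rfl h
  | succ m ih =>
    intro x z h
    rw [pow_succ] at h
    obtain ⟨y, h1, h2⟩ := exists_of_mul_ne h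
    have h3 := ih h1
    have h4 := Finset.card_lt_card (nth_K h2).2.2.2
    omega

theorem pow_zero' (t : E → Bool) (q : E × Fin 4) :
    ((nn t q * th q) ^ (Fintype.card E + 1) : Op mate) = 0 := by
  ext z x
  by_contra h
  have h1 := pow_K _ h
  have h2 := Finset.card_le_univ z.K
  omega

/-- the inverse -/
noncomputable def TT' (t : E → Bool) (q : E × Fin 4) : Op mate :=
  th q * ∑ r ∈ Finset.range (Fintype.card E + 1), (nn t q * th q) ^ r

/-! ### cluster structure -/

theorem cs_base (hW : WTF mate) (q : E × Fin 4) (x : Cfg mate) (hx : x.f q = true) :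
    CS q x (dn q x) := by
  have hA : (fun h => x.f h && !(dn q x).f h) = ci mate q x.K := by
    funext h
    cases hh : ci mate q x.K h
    · simp [dn, hh]
    · simp [dn, hh, f_ci hh, hx]
  refine ⟨Finset.Subset.refl _, dn_w hW hx, ?_, hx, dn_q, ?_, ?_, ?_, ?_⟩
  · intro h hh
    simp only [dn, Bool.and_eq_true] at hh
    exact hh.1
  · rw [hA]
    exact ci_inv q x.K
  · rw [hA]
    exact ci_inv q x.K
  · intro e h1 h2
    exact absurd h1 h2
  · intro g hg _ hgq h h1 h2
    have h3 : ci mate q x.K h = true := by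
      rw [← hA]
      simp [h1, h2]
    rw [← (ci_iff.1 h3) g hg, hgq]

theorem cs_step (hW : WTF mate) (hD : DEG mate) (t : E → Bool) (q : E × Fin 4) (x z y : Cfg mate)
    (hx : x.f q = true) (hL : LP t (dn q x) z) (hw : z.w = (dn q x).w + 2) (hzq : z.f q = true)
    (hC : CS q z y) : CS q x y := by
  obtain ⟨c1, c2, c3, c4, c5, c6, c7, c8, c9⟩ := hC
  have hK1 : x.K ⊆ z.K := hL.1
  have hq1 : (dn q x).f q = false := dn_q
  have star := hD.star t (dn q x) z hL hw
  -- `V` lies in the circle of `q` in both states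
  have hV : ∀ h, (dn q x).f h = false → z.f h = true → Same mate x.K q h ∧ Same mate z.K q h :=
    fun h a b => star q h hq1 hzq a b
  have hdx : ∀ h, (dn q x).f h = true → x.f h = true := by
    intro h hh
    simp only [dn, Bool.and_eq_true] at hh
    exact hh.1
  have hzx : ∀ h, z.f h = true → x.f h = true := by
    intro h hh
    cases hd : (dn q x).f h
    · rw [← (hV h hd hh).1 x.f x.inv, hx]
    · exact hdx h hd
  have hA' : ∀ h, (dn q x).f h = false → z.f h = true → y.f h = false := by
    intro h a b
    have h1 := (hV h a b).2 _ c6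
    simp only [c4, c5, b] at h1
    simpa using h1.symm
  -- the set `A`
  have hAC : ∀ h, Same mate x.K q h → x.f h = true ∧ y.f h = false := by
    intro h a
    have h1 : x.f h = true := by rw [← a x.f x.inv, hx]
    have h2 : (dn q x).f h = false := by
      simp [dn, ci_iff.2 a]
    refine ⟨h1, ?_⟩
    cases hz : z.f h
    · by_contra hn
      have := c3 h (by simpa using hn)
      rw [hz] at this
      exact absurd this (by decide)
    · exact hA' h h2 hz
  have hAz : ∀ h, z.f h = true → y.f h = false → x.f h = true ∧ y.f h = false :=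
    fun h a b => ⟨hzx h a, b⟩
  have hA : ∀ h, x.f h = true → y.f h = false → Same mate x.K q h ∨ (z.f h = true ∧ y.f h = false) := by
    intro h a b
    cases hz : z.f h
    · left
      have h1 : (dn q x).f h = false := by
        by_contra hn
        have := hL.2.1 h (by simpa using hn)
        rw [hz] at this
        exact absurd this (by decide)
      apply ci_iff.1
      by_contra hn
      have h2 : ci mate q x.K h = false := by simpa using hn
      simp [dn, a, h2] at h1
    · right
      exact ⟨rfl, b⟩
  -- all ends of new crossings lie in `A`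
  have hends : ∀ e ∈ y.K, e ∉ x.K → ∀ i, x.f (e, i) = true ∧ y.f (e, i) = false := by
    intro e he hne
    by_cases hez : e ∈ z.K
    · obtain ⟨p1, p2, p3⟩ := hL.2.2 e hez hne
      have sx := (dn q x).inv.slots_not_mem (e := e) hne
      have sz := z.inv.slots_mem hez
      have sA := c6.slots_mem hez
      have sC := (ci_inv (mate := mate) q x.K).slots_not_mem hne
      have vv : ∀ i, (dn q x).f (e, i) = false → z.f (e, i) = true →
          ci mate q x.K (e, i) = true ∧ (z.f (e, i) && !y.f (e, i)) = true := by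
        intro i a b
        exact ⟨ci_iff.2 (hV _ a b).1, by simp [b, hA' _ a b]⟩
      have fin : (∀ i, ci mate q x.K (e, i) = true) ∨ (∀ i, (z.f (e, i) && !y.f (e, i)) = true) →
          ∀ i, x.f (e, i) = true ∧ y.f (e, i) = false := by
        rintro (H | H) i
        · exact hAC _ (ci_iff.1 (H i))
        · have := H i
          simp only [Bool.and_eq_true, Bool.not_eq_true'] at this
          exact hAz _ this.1 this.2
      apply fin
      cases ht : t e
      · simp only [hd, tl, pt, ht, Bool.not_false, if_true] at p1 p2 p3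
        have p1' : (dn q x).f (e, 0) = false := by simpa using p1
        have p2' : z.f (e, 0) = true := by simpa using p2
        have p3' : (dn q x).f (e, 2) = z.f (e, 2) := by simpa using p3
        cases h2 : (dn q x).f (e, 2)
        · -- leaf of type (ii)
          left
          have a1 := vv 0 p1' p2'
          have a2 := vv 1 (by rw [sx.2, h2]) (by rw [sz.1, p2'])
          intro i
          fin_cases i
          · exact a1.1
          · exact a2.1
          · show ci mate q x.K (e, 2) = true
            rw [← sC.2]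
            exact a2.1
          · show ci mate q x.K (e, 3) = true
            rw [sC.1]
            exact a1.1
        · right
          have z2 : z.f (e, 2) = true := by rw [← p3', h2]
          have a1 := vv 0 p1' p2'
          have a2 := vv 3 (by rw [sx.1, p1']) (by rw [sz.2, z2])
          intro i
          fin_cases i
          · exact a1.2
          · show (z.f (e, 1) && !y.f (e, 1)) = true
            rw [sA.1]
            exact a1.2
          · show (z.f (e, 2) && !y.f (e, 2)) = true
            rw [← sA.2]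
            exact a2.2
          · exact a2.2
      · simp only [hd, tl, pt, ht, Bool.not_true, if_true] at p1 p2 p3
        have p3' : (dn q x).f (e, 0) = z.f (e, 0) := by simpa using p3
        cases h0 : (dn q x).f (e, 0)
        · left
          have a1 := vv 2 p1 p2
          have a2 := vv 3 (by rw [sx.1, h0]) (by rw [sz.2, p2])
          intro i
          fin_cases i
          · show ci mate q x.K (e, 0) = true
            rw [← sC.1]
            exact a2.1
          · show ci mate q x.K (e, 1) = true
            rw [sC.2]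
            exact a1.1
          · exact a1.1
          · exact a2.1
        · right
          have z0 : z.f (e, 0) = true := by rw [← p3', h0]
          have a1 := vv 2 p1 p2
          have a2 := vv 1 (by rw [sx.2, p1]) (by rw [sz.1, z0])
          intro i
          fin_cases i
          · show (z.f (e, 0) && !y.f (e, 0)) = true
            rw [← sA.1]
            exact a2.2
          · exact a2.2
          · exact a1.2
          · show (z.f (e, 3) && !y.f (e, 3)) = true
            rw [sA.2]
            exact a1.2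
    · intro i
      obtain ⟨a, b⟩ := c8 e he hez i
      exact hAz _ a b
  -- invariance
  have hAf : (fun h => x.f h && !y.f h) = fun h => ci mate q x.K h || (z.f h && !y.f h) := by
    funext h
    rw [Bool.eq_iff_iff]
    constructor
    · intro a
      simp only [Bool.and_eq_true, Bool.not_eq_true'] at a
      rcases hA h a.1 a.2 with b | b
      · simp [ci_iff.2 b]
      · simp [b.1, b.2]
    · intro a
      rcases Bool.or_eq_true_iff.1 a with b | b
      · have := hAC h (ci_iff.1 b)
        simp [this.1, this.2]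
      · simp only [Bool.and_eq_true, Bool.not_eq_true'] at b
        have := hAz h b.1 b.2
        simp [this.1, this.2]
  have hmate : ∀ h, (x.f (mate h) && !y.f (mate h)) = (x.f h && !y.f h) := by
    intro h
    rw [x.inv.1, y.inv.1]
  have hslots : ∀ e, (e ∈ x.K → e ∈ y.K → (x.f (e, 1) && !y.f (e, 1)) = (x.f (e, 0) && !y.f (e, 0)) ∧
      (x.f (e, 3) && !y.f (e, 3)) = (x.f (e, 2) && !y.f (e, 2))) ∧
      (e ∉ x.K → e ∉ y.K → (x.f (e, 3) && !y.f (e, 3)) = (x.f (e, 0) && !y.f (e, 0)) ∧
      (x.f (e, 1) && !y.f (e, 1)) = (x.f (e, 2) && !y.f (e, 2))) := by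
    intro e
    constructor
    · intro h1 h2
      have a := x.inv.slots_mem h1
      have b := y.inv.slots_mem h2
      rw [a.1, a.2, b.1, b.2]
      exact ⟨rfl, rfl⟩
    · intro h1 h2
      have a := x.inv.slots_not_mem h1
      have b := y.inv.slots_not_mem h2
      rw [a.1, a.2, b.1, b.2]
      exact ⟨rfl, rfl⟩
  have hxy : x.K ⊆ y.K := hK1.trans c1
  have hone : ∀ e ∈ y.K, e ∉ x.K → ∀ i, (x.f (e, i) && !y.f (e, i)) = true := by
    intro e he hne i
    obtain ⟨a, b⟩ := hends e he hne i
    simp [a, b]
  have hI1 : Inv mate x.K (fun h => x.f h && !y.f h) := by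
    rw [inv_iff]
    refine ⟨hmate, fun e => ⟨fun he => (hslots e).1 he (hxy he), fun he => ?_⟩⟩
    by_cases hy : e ∈ y.K
    · have := hone e hy he
      exact ⟨(this 3).trans (this 0).symm, (this 1).trans (this 2).symm⟩
    · exact (hslots e).2 he hy
  have hI2 : Inv mate y.K (fun h => x.f h && !y.f h) := by
    rw [inv_iff]
    refine ⟨hmate, fun e => ⟨fun he => ?_, fun he => (hslots e).2 (fun h => he (hxy h)) he⟩⟩
    by_cases hxe : e ∈ x.K
    · exact (hslots e).1 hxe he
    · have := hone e he hxe
      exact ⟨(this 1).trans (this 0).symm, (this 3).trans (this 2).symm⟩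
  refine ⟨hxy, ?_, ?_, hx, c5, hI1, hI2, hends, ?_⟩
  · have := dn_w hW hx
    linarith
  · intro h hh
    exact hzx h (c3 h hh)
  · intro g hg1 hg2 hgq h h1 h2
    have hgz : Inv mate z.K g := by
      apply inv_congr hg1
      intro e he
      have he1 : e ∉ x.K := fun h => (he.1 h) (hK1 h)
      have he2 : e ∈ z.K := by tauto
      exact (inv_const hg2 hg1 (c1 he2) he1 2).symm
    rcases hA h h1 h2 with a | a
    · rw [← a g hg1, hgq]
    · exact c9 g hgz hg2 hgq h a.1 a.2

theorem cs_pow (hW : WTF mate) (hD : DEG mate) (t : E → Bool) (q : E × Fin 4) (r : ℕ) :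
    ∀ x y : Cfg mate, (th q * (nn t q * th q) ^ r : Op mate) y x ≠ 0 → CS q x y := by
  induction r with
  | zero =>
    intro x y h
    rw [pow_zero, mul_one] at h
    obtain ⟨h1, h2⟩ := ind_ne_zero h
    rw [h2]
    exact cs_base hW q x h1
  | succ r ih =>
    intro x y h
    rw [pow_succ, ← mul_assoc] at h
    obtain ⟨z, h1, h2⟩ := exists_of_mul_ne h
    obtain ⟨a1, a2, a3, _⟩ := nth_K h2
    exact cs_step hW hD t q x z y a1 a2.1 a2.2 a3 (ih z y h1)

theorem tq : S_TQ := by
  intro E _ _ mate _ hW hD t q
  set a : Op mate := nn t q * th q with ha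
  set G : Op mate := ∑ r ∈ Finset.range (Fintype.card E + 1), a ^ r with hG
  have g1 : (1 + a) * G = 1 := by
    have h := mul_neg_geom_sum a (Fintype.card E + 1)
    rw [← hG, sub_eq_add_op, ha, pow_zero', ← ha, sub_zero] at h
    exact h
  have g2 : G * (1 + a) = 1 := by
    have h := geom_sum_mul_neg a (Fintype.card E + 1)
    rw [← hG, sub_eq_add_op, ha, pow_zero', ← ha, sub_zero] at h
    exact h
  refine ⟨th q * G, ?_, ?_, ?_, ?_, ?_⟩
  · have h1 : (LL t q * th q : Op mate) = pr q * (1 + a) := by
      rw [LL_eq hW, add_mul, X_th, mul_add, mul_one, ha, ← mul_assoc, pr_n]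
    rw [← mul_assoc, h1, mul_assoc, g1, mul_one]
  · have h1 : (LL t q : Op mate) = (1 + a) * XX q := by
      rw [LL_eq hW, add_mul, one_mul, ha, mul_assoc, th_X, mul_add, mul_one, n_pr, add_zero]
    rw [h1, mul_assoc, ← mul_assoc G, g2, one_mul, th_X]
  · have h1 : G = 1 + G * a := by
      have h2 : G + G * a = 1 := by
        rw [← g2, mul_add, mul_one]
      calc G = G + (G * a + G * a) := by rw [add_self_op, add_zero]
        _ = (G + G * a) + G * a := by rw [add_assoc]
        _ = 1 + G * a := by rw [h2]
    have h3 : a * pr q = a := by rw [ha, mul_assoc, th_pr]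
    calc th q * G * pr q = th q * ((1 + G * a) * pr q) := by rw [← h1, mul_assoc]
      _ = th q * pr q + th q * (G * (a * pr q)) := by
          rw [add_mul, one_mul, mul_add, mul_assoc G]
      _ = th q + th q * (G * a) := by rw [th_pr, h3]
      _ = th q * (1 + G * a) := by rw [mul_add, mul_one]
      _ = th q * G := by rw [← h1]
  · rw [← mul_assoc, pr_th, zero_mul]
  · intro x y h
    rw [hG, Finset.mul_sum, Matrix.sum_apply] at h
    obtain ⟨r, _, hr⟩ := Finset.exists_ne_zero_of_sum_ne_zero h
    exact cs_pow hW hD t q r x y hr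

end Pool.Agent.Y282.SZ.TQ
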